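import Mathlib

/-!
# Cell-probe data structures for set intersection queries

Problem MP_f326ae_lc.  Universe elements and memory words are both elements of `Fin (2 ^ w)`.
-/

namespace Pool.Agent.SetInt

open Finset

/-- An adaptive query algorithm: it either stops with an answer, or reads a memory cell `c` and
continues in a way that depends on the content of `c`. -/
inductive Alg (S : ℕ) (W R : Type) : Type
  | out (r : R) : Alg S W R
  | probe (c : Fin S) (next : W → Alg S W R) : Alg S W R

namespace Alg

variable {S : ℕ} {W R : Type}

/-- The answer on the memory `M`. -/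
def run (M : Fin S → W) : Alg S W R → R
  | out r => r
  | probe c next => run M (next (M c))

/-- The number of probes on the memory `M` (repetitions count). -/
def time (M : Fin S → W) : Alg S W R → ℕ
  | out _ => 0
  | probe c next => time M (next (M c)) + 1

/-- The set of cells that are probed on the memory `M`. -/
def probed (M : Fin S → W) : Alg S W R → Finset (Fin S)
  | out _ => ∅
  | probe c next => insert c (probed M (next (M c)))

end Alg

/-- A data structure with `S` cells of `w` bits for families of subsets of `Fin (2 ^ w)`:
the memory contents after preprocessing, and a query algorithm for every pair of indices. -/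
structure DataStructure (S w : ℕ) where
  /-- memory contents of a family of `m` sets -/
  mem : ∀ m : ℕ, (Fin m → Finset (Fin (2 ^ w))) → Fin S → Fin (2 ^ w)
  /-- query algorithms -/
  query : ∀ m : ℕ, Fin m → Fin m → Alg S (Fin (2 ^ w)) (Finset (Fin (2 ^ w)))

namespace DataStructure

variable {S w : ℕ}

/-- On all families of at most `N` sets of total size `N`, every query `(i, j)`, `i ≠ j`, returns
`F i ∩ F j` after at most `C (T + |F i ∩ F j|)` probes. -/
def Solves (𝒟 : DataStructure S w) (N C T : ℕ) : Prop :=
  ∀ (m : ℕ) (F : Fin m → Finset (Fin (2 ^ w))), m ≤ N → ∑ i, (F i).card = N → ∀ i j, i ≠ j →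
    (𝒟.query m i j).run (𝒟.mem m F) = F i ∩ F j ∧
    (𝒟.query m i j).time (𝒟.mem m F) ≤ C * (T + (F i ∩ F j).card)

/-- Cell `c` is `D`-light for `(i, j)` at `F`: with all other sets of the family fixed, the domain
of all pairs `(A, B)` with `|A| = |F i|`, `|B| = |F j|` has a partition into at most `2 ^ D`
rectangles `P r × Q r` on each of which the content of `c` is constant (`= v r`), the content
being taken for the family with `F i`, `F j` replaced by `A`, `B`. -/
def Light (𝒟 : DataStructure S w) (D : ℕ) {m : ℕ} (F : Fin m → Finset (Fin (2 ^ w)))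
    (i j : Fin m) (c : Fin S) : Prop :=
  ∃ (P Q : Fin (2 ^ D) → Finset (Fin (2 ^ w)) → Prop) (v : Fin (2 ^ D) → Fin (2 ^ w)),
    ∀ A B : Finset (Fin (2 ^ w)), A.card = (F i).card → B.card = (F j).card →
      (∃! r, P r A ∧ Q r B) ∧
      ∀ r, P r A → Q r B → 𝒟.mem m (Function.update (Function.update F i A) j B) c = v r

open Classical in
/-- The set of all triples `(c, i, j)` with `i < j` such that the query `(i, j)` on the family `F`
probes the cell `c`, and `c` is not `D`-light for `(i, j)` at `F`. -/
noncomputable def heavy (𝒟 : DataStructure S w) (D : ℕ) {m : ℕ}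
    (F : Fin m → Finset (Fin (2 ^ w))) : Finset (Fin S × Fin m × Fin m) :=
  univ.filter (fun t => t.2.1 < t.2.2 ∧
    t.1 ∈ (𝒟.query m t.2.1 t.2.2).probed (𝒟.mem m F) ∧ ¬ 𝒟.Light D F t.2.1 t.2.2 t.1)

/-- On families of at most `N` sets, every cell depends arbitrarily on at most `q` of the sets
(those with index in `I`) and on a digest of `D` bits of each of the other sets. -/
def Local (𝒟 : DataStructure S w) (N q D : ℕ) : Prop :=
  ∀ (m : ℕ) (c : Fin S), m ≤ N → ∃ (I : Finset (Fin m))
    (f : Fin m → Finset (Fin (2 ^ w)) → Fin (2 ^ D)), I.card ≤ q ∧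
    ∀ F G : Fin m → Finset (Fin (2 ^ w)), (∀ i ∈ I, F i = G i) →
      (∀ i, i ∉ I → f i (F i) = f i (G i)) → 𝒟.mem m F c = 𝒟.mem m G c

end DataStructure

end Pool.Agent.SetInt
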