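import Pool.Agent.SetInt.Main

/-!
# Structures whose cells depend on few sets and on short digests of the others
-/

namespace Pool.Agent.SetInt

open Finset

variable {S w : ℕ}

/-- A function `g A B` that depends on `A` only through a digest is constant on the rectangles
of a partition into `2 ^ (D + w)` rectangles. -/
lemma rect_of_digest {X Y : Type} {D : ℕ} (g : X → Y → Fin (2 ^ w)) (f : X → Fin (2 ^ D))
    (hf : ∀ A A' B, f A = f A' → g A B = g A' B) :
    ∃ (P : Fin (2 ^ (D + w)) → X → Prop) (Q : Fin (2 ^ (D + w)) → Y → Prop)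
      (v : Fin (2 ^ (D + w)) → Fin (2 ^ w)), ∀ A B,
      (∃! r, P r A ∧ Q r B) ∧ ∀ r, P r A → Q r B → g A B = v r := by
  classical
  let ψ : Fin (2 ^ (D + w)) ≃ Fin (2 ^ D) × Fin (2 ^ w) :=
    (finCongr (pow_add 2 D w)).trans finProdFinEquiv.symm
  let g' : Fin (2 ^ D) → Y → Fin (2 ^ w) := fun d B =>
    if h : ∃ A, f A = d then g h.choose B else 0
  have hg' : ∀ A B, g' (f A) B = g A B := by
    intro A B
    have h : ∃ A', f A' = f A := ⟨A, rfl⟩
    simp only [g', dif_pos h]
    exact hf _ _ _ h.choose_spec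
  refine ⟨fun r A => (ψ r).1 = f A, fun r B => (ψ r).2 = g' (ψ r).1 B, fun r => (ψ r).2, ?_⟩
  intro A B
  refine ⟨⟨ψ.symm (f A, g A B), ⟨?_, ?_⟩, ?_⟩, ?_⟩
  · simp
  · simp [hg']
  · rintro r ⟨h1, h2⟩
    rw [h1, hg'] at h2
    rw [Equiv.eq_symm_apply]
    exact Prod.ext h1 h2
  · intro r h1 h2
    simp only at h1 h2 ⊢
    rw [h1, hg'] at h2
    exact h2.symm

lemma light_of_notMem_left (𝒟 : DataStructure S w) {D m : ℕ} (c : Fin S) (I : Finset (Fin m))
    (f : Fin m → Finset (Fin (2 ^ w)) → Fin (2 ^ D))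
    (h : ∀ F G : Fin m → Finset (Fin (2 ^ w)), (∀ i ∈ I, F i = G i) →
      (∀ i, i ∉ I → f i (F i) = f i (G i)) → 𝒟.mem m F c = 𝒟.mem m G c)
    (F : Fin m → Finset (Fin (2 ^ w))) {i j : Fin m} (hij : i ≠ j) (hi : i ∉ I) :
    𝒟.Light (D + w) F i j c := by
  obtain ⟨P, Q, v, hPQ⟩ := rect_of_digest
    (fun A B => 𝒟.mem m (Function.update (Function.update F i A) j B) c) (f i)
    (by
      intro A A' B hA
      apply h
      · intro l hl
        have hli : l ≠ i := fun h' => hi (h' ▸ hl)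
        by_cases hlj : l = j
        · subst hlj; simp
        · simp [hlj, hli]
      · intro l _
        by_cases hlj : l = j
        · subst hlj; simp
        · by_cases hli : l = i
          · subst hli
            rw [Function.update_of_ne hlj, Function.update_of_ne hlj, Function.update_self,
              Function.update_self, hA]
          · simp [hlj, hli])
  exact ⟨P, Q, v, fun A B _ _ => hPQ A B⟩

lemma light_of_notMem_right (𝒟 : DataStructure S w) {D m : ℕ} (c : Fin S) (I : Finset (Fin m))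
    (f : Fin m → Finset (Fin (2 ^ w)) → Fin (2 ^ D))
    (h : ∀ F G : Fin m → Finset (Fin (2 ^ w)), (∀ i ∈ I, F i = G i) →
      (∀ i, i ∉ I → f i (F i) = f i (G i)) → 𝒟.mem m F c = 𝒟.mem m G c)
    (F : Fin m → Finset (Fin (2 ^ w))) {i j : Fin m} (hj : j ∉ I) :
    𝒟.Light (D + w) F i j c := by
  obtain ⟨P, Q, v, hPQ⟩ := rect_of_digest
    (fun B A => 𝒟.mem m (Function.update (Function.update F i A) j B) c) (f j)
    (by
      intro B B' A hB
      apply h
      · intro l hl
        have hlj : l ≠ j := fun h' => hj (h' ▸ hl)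
        simp [hlj]
      · intro l _
        by_cases hlj : l = j
        · subst hlj
          rw [Function.update_self, Function.update_self, hB]
        · simp [hlj])
  refine ⟨Q, P, v, fun A B _ _ => ?_⟩
  obtain ⟨⟨r, hr, hr'⟩, h2⟩ := hPQ B A
  exact ⟨⟨r, ⟨hr.2, hr.1⟩, fun r' h' => hr' r' ⟨h'.2, h'.1⟩⟩, fun r' h3 h4 => h2 r' h4 h3⟩

/-- The lower bound for `Local q D` structures. -/
theorem main_local {N C T D q : ℕ} (hN : 3 ≤ N) (hw : N ^ 2 ≤ 2 ^ w) (hT : 1 ≤ T)
    (hC : 1 ≤ C) (hq : 1 ≤ q) (𝒟 : DataStructure S w) (h𝒟 : 𝒟.Solves N C T)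
    (hloc : 𝒟.Local N q D) :
    N ^ 2 ≤ 2 * 10 ^ 10 * (C ^ 2 * (D + w) ^ 2 * w) * (q ^ 2 * S * T) := by
  classical
  have hw0 : 1 ≤ w := by
    by_contra h
    have : w = 0 := by omega
    rw [this] at hw
    nlinarith
  refine main hN hw hT hC (by omega) (Nat.one_le_pow _ _ hq) 𝒟 h𝒟 ?_
  intro m F hmN _
  choose I f hI h using fun c => hloc m c hmN
  have h1 : 𝒟.heavy (D + w) F ⊆ (univ : Finset (Fin S)).biUnion
      (fun c => (I c ×ˢ I c).image (fun p => (c, p))) := by
    rintro ⟨c, i, j⟩ hc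
    rw [DataStructure.heavy, mem_filter] at hc
    obtain ⟨_, hij, _, hl⟩ := hc
    rw [mem_biUnion]
    refine ⟨c, mem_univ _, ?_⟩
    rw [mem_image]
    refine ⟨(i, j), ?_, rfl⟩
    rw [mem_product]
    constructor
    · by_contra hi
      exact hl (light_of_notMem_left 𝒟 c (I c) (f c) (h c) F hij.ne hi)
    · by_contra hj
      exact hl (light_of_notMem_right 𝒟 c (I c) (f c) (h c) F hj)
  calc (𝒟.heavy (D + w) F).card ≤ _ := card_le_card h1
    _ ≤ ∑ c : Fin S, ((I c ×ˢ I c).image (fun p => (c, p))).card := card_biUnion_le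
    _ ≤ ∑ _c : Fin S, q ^ 2 := by
        apply sum_le_sum
        intro c _
        refine card_image_le.trans ?_
        rw [card_product, sq]
        exact Nat.mul_le_mul (hI c) (hI c)
    _ = q ^ 2 * S := by rw [sum_const, card_univ, Fintype.card_fin, smul_eq_mul, mul_comm]

end Pool.Agent.SetInt
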