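import Mathlib

/-!
# The one-letter inequality
-/

namespace Pool.Agent.SetInt

open Finset Real

/-- `a^(1-e) (1/L)^e ≤ a + 2 e (√(a/L) - a)` (weighted AM-GM), written without division. -/
lemma rpow_le_lin {a l e : ℝ} (ha : 0 ≤ a) (hl : 0 < l) (he : 0 < e) (he2 : 2 * e ≤ 1) :
    a ^ (1 - e) ≤ l ^ e * (a + 2 * e * (√(a / l) - a)) := by
  have h1 : a ^ (1 - e) * (1 / l) ^ e = a ^ (1 - 2 * e) * (√(a / l)) ^ (2 * e) := by
    rcases ha.eq_or_lt with h | h
    · subst h
      have h2 : (1 : ℝ) - e ≠ 0 := by linarith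
      rw [Real.zero_rpow h2]
      simp
      right
      exact Real.zero_rpow (by linarith)
    · rw [Real.sqrt_eq_rpow, ← Real.rpow_mul (by positivity), Real.div_rpow ha hl.le,
        Real.div_rpow zero_le_one hl.le, Real.one_rpow]
      have h3 : (1 : ℝ) / 2 * (2 * e) = e := by ring
      rw [h3, mul_one_div, mul_div_assoc', ← Real.rpow_add h]
      congr 2
      ring
  have h2 := Real.geom_mean_le_arith_mean2_weighted (w₁ := 1 - 2 * e) (w₂ := 2 * e) (p₁ := a)
    (p₂ := √(a / l)) (by linarith) (by linarith) ha (Real.sqrt_nonneg _) (by ring)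
  rw [← h1] at h2
  have h3 : l ^ e * ((1 : ℝ) / l) ^ e = 1 := by
    rw [← Real.mul_rpow hl.le (by positivity)]
    rw [mul_one_div, div_self hl.ne', Real.one_rpow]
  have h4 : 0 < l ^ e := Real.rpow_pos_of_pos hl _
  calc a ^ (1 - e) = l ^ e * (a ^ (1 - e) * ((1 : ℝ) / l) ^ e) := by
        rw [mul_comm (a ^ (1 - e)), ← mul_assoc, h3, one_mul]
    _ ≤ l ^ e * ((1 - 2 * e) * a + 2 * e * √(a / l)) := by
        apply mul_le_mul_of_nonneg_left h2 h4.le
    _ = _ := by ring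

section
variable {L : ℕ} 

/-- The Bhattacharyya coefficient with the uniform distribution. -/
noncomputable def bc (a : Fin L → ℝ) : ℝ := ∑ x, √(a x / L)

lemma sum_rpow_le (hL : 2 ≤ L) (a : Fin L → ℝ) (ha : ∀ x, 0 ≤ a x) (hs : ∑ x, a x = 1)
    {e : ℝ} (he : e = 1 / (2 * L)) :
    ∑ x, (a x) ^ (1 - e) ≤ (L : ℝ) ^ e * (1 - 2 * e * (1 - bc a)) := by
  have hL' : (2 : ℝ) ≤ L := by exact_mod_cast hL
  have he0 : 0 < e := by rw [he]; positivity
  have he2 : 2 * e ≤ 1 := by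
    rw [he, mul_one_div, div_le_one (by positivity)]; linarith
  calc ∑ x, (a x) ^ (1 - e) ≤ ∑ x, (L : ℝ) ^ e * (a x + 2 * e * (√(a x / L) - a x)) :=
        sum_le_sum (fun x _ => rpow_le_lin (ha x) (by linarith) he0 he2)
    _ = (L : ℝ) ^ e * (∑ x, a x + 2 * e * (bc a - ∑ x, a x)) := by
        rw [← mul_sum, sum_add_distrib, ← mul_sum, sum_sub_distrib, bc]
    _ = _ := by rw [hs]; ring

lemma bc_le_one (hL : 2 ≤ L) (a : Fin L → ℝ) (ha : ∀ x, 0 ≤ a x) (hs : ∑ x, a x = 1) :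
    bc a ≤ 1 := by
  have hL' : (2 : ℝ) ≤ L := by exact_mod_cast hL
  have h : ∀ x, √(a x / L) ≤ (a x + 1 / L) / 2 := by
    intro x
    have h1 : √(a x / L) = √(a x) * √(1 / L) := by
      rw [← Real.sqrt_mul (ha x), mul_one_div]
    rw [h1]
    have h2 := sq_nonneg (√(a x) - √(1 / L))
    have h3 : √(a x) ^ 2 = a x := Real.sq_sqrt (ha x)
    have h4 : √((1 : ℝ) / L) ^ 2 = 1 / L := Real.sq_sqrt (by positivity)
    nlinarith
  calc bc a ≤ ∑ x, (a x + 1 / L) / 2 := sum_le_sum (fun x _ => h x)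
    _ = (∑ x, a x + ∑ x : Fin L, (1 : ℝ) / L) / 2 := by rw [← sum_div, sum_add_distrib]
    _ = 1 := by
      rw [hs, sum_const, card_univ, Fintype.card_fin, nsmul_eq_mul, mul_one_div,
        div_self (by linarith)]
      norm_num

/-- If `bc a ≥ 31/32` then at most `L/4` of the entries are below `1/(4L)`. -/
lemma card_small_le (hL : 2 ≤ L) (a : Fin L → ℝ) (ha : ∀ x, 0 ≤ a x) (hs : ∑ x, a x = 1)
    (hb : 31 / 32 ≤ bc a) :
    ((univ.filter (fun x => a x < 1 / (4 * L))).card : ℝ) ≤ L / 4 := by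
  have hL' : (2 : ℝ) ≤ L := by exact_mod_cast hL
  have h1 : ∑ x, (√(a x) - √(1 / L)) ^ 2 = 2 * (1 - bc a) := by
    have : ∀ x, (√(a x) - √(1 / L)) ^ 2 = a x + 1 / L - 2 * √(a x / L) := by
      intro x
      have h1 : √(a x / L) = √(a x) * √(1 / L) := by
        rw [← Real.sqrt_mul (ha x), mul_one_div]
      have h3 : √(a x) ^ 2 = a x := Real.sq_sqrt (ha x)
      have h4 : √((1 : ℝ) / L) ^ 2 = 1 / L := Real.sq_sqrt (by positivity)
      rw [h1]; nlinarith
    rw [sum_congr rfl (fun x _ => this x), sum_sub_distrib, sum_add_distrib, hs, ← mul_sum,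
      sum_const, card_univ, Fintype.card_fin, nsmul_eq_mul, mul_one_div,
        div_self (by linarith), bc]
    ring
  have h2 : ∑ x ∈ univ.filter (fun x => a x < 1 / (4 * L)), (1 : ℝ) / (4 * L) ≤
      ∑ x, (√(a x) - √(1 / L)) ^ 2 := by
    calc ∑ x ∈ univ.filter (fun x => a x < 1 / (4 * L)), (1 : ℝ) / (4 * L) ≤
        ∑ x ∈ univ.filter (fun x => a x < 1 / (4 * L)), (√(a x) - √(1 / L)) ^ 2 := by
          apply sum_le_sum
          intro x hx
          rw [mem_filter] at hx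
          have h5 : √(a x) ≤ √(1 / L) / 2 := by
            have : √((1 : ℝ) / L) / 2 = √(1 / (4 * L)) := by
              symm
              rw [show (1 : ℝ) / (4 * L) = (1 / L) / 2 ^ 2 by field_simp; norm_num,
                Real.sqrt_div (x := (1 : ℝ) / L) (by positivity) (2 ^ 2),
                Real.sqrt_sq (by norm_num)]
            rw [this]
            exact Real.sqrt_le_sqrt hx.2.le
          have h4 : √((1 : ℝ) / L) ^ 2 = 1 / L := Real.sq_sqrt (by positivity)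
          have h6 : 0 ≤ √((1 : ℝ) / L) := Real.sqrt_nonneg _
          have h7 : (1 : ℝ) / (4 * L) = (√((1 : ℝ) / L) / 2) ^ 2 := by
            rw [div_pow, h4]; field_simp; norm_num
          rw [h7, ← sq_abs (√(a x) - √(1 / L))]
          apply pow_le_pow_left₀ (by positivity)
          rw [abs_sub_comm]
          refine le_trans ?_ (le_abs_self _)
          linarith
      _ ≤ _ := sum_le_sum_of_subset_of_nonneg (filter_subset _ _) (fun _ _ _ => sq_nonneg _)
  rw [h1, sum_const, nsmul_eq_mul, mul_one_div, div_le_iff₀ (by positivity)] at h2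
  nlinarith

/-- Normalised one-letter inequality, disagreement case. -/
lemma letter_ne (hL : 2 ≤ L) (a b : Fin L → ℝ) (ha : ∀ x, 0 ≤ a x) (hb : ∀ x, 0 ≤ b x)
    (hsa : ∑ x, a x = 1) (hsb : ∑ x, b x = 1) {e : ℝ} (he : e = 1 / (2 * L)) :
    (∑ x, (a x) ^ (1 - e)) * (∑ x, (b x) ^ (1 - e)) - ∑ x, (a x) ^ (1 - e) * (b x) ^ (1 - e) ≤
      (1 - 1 / (32 * L)) * ((L : ℝ) ^ e) ^ 2 := by
  have hL' : (2 : ℝ) ≤ L := by exact_mod_cast hL
  have he0 : 0 < e := by rw [he]; positivity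
  have he2 : 2 * e ≤ 1 := by
    rw [he, mul_one_div, div_le_one (by positivity)]; linarith
  have heL : 2 * e = 1 / L := by rw [he]; field_simp
  set K := (L : ℝ) ^ e with hK
  have hK0 : 0 < K := Real.rpow_pos_of_pos (by linarith) _
  have hA := sum_rpow_le hL a ha hsa he
  have hB := sum_rpow_le hL b hb hsb he
  have hA0 : 0 ≤ ∑ x, (a x) ^ (1 - e) := sum_nonneg (fun x _ => Real.rpow_nonneg (ha x) _)
  have hB0 : 0 ≤ ∑ x, (b x) ^ (1 - e) := sum_nonneg (fun x _ => Real.rpow_nonneg (hb x) _)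
  have hC0 : 0 ≤ ∑ x, (a x) ^ (1 - e) * (b x) ^ (1 - e) :=
    sum_nonneg (fun x _ => mul_nonneg (Real.rpow_nonneg (ha x) _) (Real.rpow_nonneg (hb x) _))
  have hbA := bc_le_one hL a ha hsa
  have hbB := bc_le_one hL b hb hsb
  have hA1 : ∑ x, (a x) ^ (1 - e) ≤ K := by
    refine hA.trans ?_
    have : 0 ≤ K * (2 * e * (1 - bc a)) := by
      apply mul_nonneg hK0.le; apply mul_nonneg (by linarith); linarith
    linarith
  have hB1 : ∑ x, (b x) ^ (1 - e) ≤ K := by
    refine hB.trans ?_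
    have : 0 ≤ K * (2 * e * (1 - bc b)) := by
      apply mul_nonneg hK0.le; apply mul_nonneg (by linarith); linarith
    linarith
  have hq : (1 : ℝ) / (32 * L) = 2 * e * (1 / 32) := by rw [heL]; field_simp
  rcases lt_or_ge (bc a) (31 / 32) with h1 | h1
  · have h2 : ∑ x, (a x) ^ (1 - e) ≤ K * (1 - 1 / (32 * L)) := by
      refine hA.trans ?_
      apply mul_le_mul_of_nonneg_left _ hK0.le
      rw [hq]
      have : 2 * e * (1 / 32) ≤ 2 * e * (1 - bc a) := by
        apply mul_le_mul_of_nonneg_left _ (by linarith); linarith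
      linarith
    calc _ ≤ (∑ x, (a x) ^ (1 - e)) * (∑ x, (b x) ^ (1 - e)) := by linarith
      _ ≤ (K * (1 - 1 / (32 * L))) * K := mul_le_mul h2 hB1 hB0 (hA0.trans h2)
      _ = _ := by ring
  rcases lt_or_ge (bc b) (31 / 32) with h3 | h3
  · have h2 : ∑ x, (b x) ^ (1 - e) ≤ K * (1 - 1 / (32 * L)) := by
      refine hB.trans ?_
      apply mul_le_mul_of_nonneg_left _ hK0.le
      rw [hq]
      have : 2 * e * (1 / 32) ≤ 2 * e * (1 - bc b) := by
        apply mul_le_mul_of_nonneg_left _ (by linarith); linarith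
      linarith
    calc _ ≤ (∑ x, (a x) ^ (1 - e)) * (∑ x, (b x) ^ (1 - e)) := by linarith
      _ ≤ K * (K * (1 - 1 / (32 * L))) := mul_le_mul hA1 h2 hB0 hK0.le
      _ = _ := by ring
  -- both close to uniform
  have h4 := card_small_le hL a ha hsa h1
  have h5 := card_small_le hL b hb hsb h3
  set A := univ.filter (fun x => a x < 1 / (4 * L)) with hAdef
  set B := univ.filter (fun x => b x < 1 / (4 * L)) with hBdef
  have h6 : (L : ℝ) / 2 ≤ ((A ∪ B)ᶜ.card : ℝ) := by
    have h7 : (A ∪ B)ᶜ.card + (A ∪ B).card = L := by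
      rw [card_compl_add_card, Fintype.card_fin]
    have h8 : (A ∪ B).card ≤ A.card + B.card := card_union_le _ _
    have h7' : ((A ∪ B)ᶜ.card : ℝ) + ((A ∪ B).card : ℝ) = L := by exact_mod_cast h7
    have h8' : ((A ∪ B).card : ℝ) ≤ A.card + B.card := by exact_mod_cast h8
    linarith
  have h9 : ∀ x ∈ (A ∪ B)ᶜ, K ^ 2 / (16 * L ^ 2) ≤ (a x) ^ (1 - e) * (b x) ^ (1 - e) := by
    intro x hx
    rw [mem_compl, mem_union, not_or, hAdef, hBdef, mem_filter, mem_filter] at hx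
    have ha' : 1 / (4 * L) ≤ a x := by
      by_contra h; exact hx.1 ⟨mem_univ _, not_le.1 h⟩
    have hb' : 1 / (4 * L) ≤ b x := by
      by_contra h; exact hx.2 ⟨mem_univ _, not_le.1 h⟩
    have key : ∀ y : ℝ, 1 / (4 * L) ≤ y → K / (4 * L) ≤ y ^ (1 - e) := by
      intro y hy
      have h10 : (1 / (4 * (L : ℝ))) ^ (1 - e) ≤ y ^ (1 - e) :=
        Real.rpow_le_rpow (by positivity) hy (by linarith)
      refine le_trans ?_ h10
      have h13 : (1 / (4 * (L : ℝ))) ^ (1 - e) = (4 * (L : ℝ)) ^ e / (4 * L) := by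
        rw [Real.rpow_sub (by positivity), Real.rpow_one,
          Real.div_rpow zero_le_one (by positivity), Real.one_rpow]
        have : (4 * (L : ℝ)) ^ e ≠ 0 := (Real.rpow_pos_of_pos (by positivity) _).ne'
        field_simp
      rw [h13]
      apply div_le_div_of_nonneg_right _ (by positivity)
      apply Real.rpow_le_rpow (by positivity) (by linarith) he0.le
    calc K ^ 2 / (16 * L ^ 2) = (K / (4 * L)) * (K / (4 * L)) := by field_simp; norm_num
      _ ≤ _ := mul_le_mul (key _ ha') (key _ hb') (by positivity)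
          (Real.rpow_nonneg (ha x) _)
  have h11 : K ^ 2 / (32 * L) ≤ ∑ x, (a x) ^ (1 - e) * (b x) ^ (1 - e) := by
    calc K ^ 2 / (32 * L) = (L / 2) * (K ^ 2 / (16 * L ^ 2)) := by field_simp; norm_num
      _ ≤ ((A ∪ B)ᶜ.card : ℝ) * (K ^ 2 / (16 * L ^ 2)) :=
          mul_le_mul_of_nonneg_right h6 (by positivity)
      _ = ∑ x ∈ (A ∪ B)ᶜ, K ^ 2 / (16 * L ^ 2) := by rw [sum_const, nsmul_eq_mul]
      _ ≤ ∑ x ∈ (A ∪ B)ᶜ, (a x) ^ (1 - e) * (b x) ^ (1 - e) := sum_le_sum h9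
      _ ≤ _ := sum_le_sum_of_subset_of_nonneg (subset_univ _)
          (fun x _ _ => mul_nonneg (Real.rpow_nonneg (ha x) _) (Real.rpow_nonneg (hb x) _))
  have h12 : (∑ x, (a x) ^ (1 - e)) * (∑ x, (b x) ^ (1 - e)) ≤ K * K :=
    mul_le_mul hA1 hB1 hB0 hK0.le
  calc _ ≤ K * K - K ^ 2 / (32 * L) := by linarith
    _ = _ := by field_simp

/-- Normalised one-letter inequality, agreement case. -/
lemma letter_eq (hL : 2 ≤ L) (a b : Fin L → ℝ) (ha : ∀ x, 0 ≤ a x) (hb : ∀ x, 0 ≤ b x)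
    (hsa : ∑ x, a x = 1) (hsb : ∑ x, b x = 1) {e : ℝ} (he : e = 1 / (2 * L)) :
    ∑ x, (a x) ^ (1 - e) * (b x) ^ (1 - e) ≤ (1 - 1 / (32 * L)) * ((L : ℝ) ^ e) ^ 2 := by
  have hL' : (2 : ℝ) ≤ L := by exact_mod_cast hL
  have he0 : 0 < e := by rw [he]; positivity
  have he2 : 2 * e ≤ 1 := by
    rw [he, mul_one_div, div_le_one (by positivity)]; linarith
  have h1 : ∑ x, (a x) ^ (1 - e) * (b x) ^ (1 - e) ≤ 1 := by
    have h2 : ∀ x, (a x) ^ (1 - e) * (b x) ^ (1 - e) ≤ (a x + b x) / 2 := by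
      intro x
      have hax : a x ≤ 1 := by rw [← hsa]; exact single_le_sum (fun i _ => ha i) (mem_univ x)
      have hbx : b x ≤ 1 := by rw [← hsb]; exact single_le_sum (fun i _ => hb i) (mem_univ x)
      rw [← Real.mul_rpow (ha x) (hb x)]
      have h3 : (a x * b x) ^ (1 - e) ≤ (a x * b x) ^ ((1 : ℝ) / 2) := by
        rcases (mul_nonneg (ha x) (hb x)).eq_or_lt with h | h
        · rw [← h, Real.zero_rpow (by linarith), Real.zero_rpow (by norm_num)]
        · apply Real.rpow_le_rpow_of_exponent_ge h (mul_le_one₀ hax (hb x) hbx) (by linarith)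
      refine h3.trans ?_
      rw [← Real.sqrt_eq_rpow, Real.sqrt_mul (ha x)]
      nlinarith [sq_nonneg (√(a x) - √(b x)), Real.sq_sqrt (ha x), Real.sq_sqrt (hb x)]
    calc _ ≤ ∑ x, (a x + b x) / 2 := sum_le_sum (fun x _ => h2 x)
      _ = 1 := by rw [← sum_div, sum_add_distrib, hsa, hsb]; norm_num
  refine h1.trans ?_
  have h3 : ((L : ℝ) ^ e) ^ 2 = Real.exp (Real.log L / L) := by
    rw [← Real.rpow_natCast, ← Real.rpow_mul (by linarith), Real.rpow_def_of_pos (by linarith), he]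
    congr 1
    push_cast
    field_simp
  have h4 : 1 + 1 / (2 * (L : ℝ)) ≤ ((L : ℝ) ^ e) ^ 2 := by
    rw [h3]
    have h5 : (1 : ℝ) / 2 ≤ Real.log L := by
      have := Real.log_two_gt_d9
      have h6 : Real.log 2 ≤ Real.log L := Real.log_le_log (by norm_num) hL'
      linarith
    have h7 : 1 / (2 * (L : ℝ)) ≤ Real.log L / L := by
      rw [div_le_div_iff₀ (by positivity) (by positivity)]
      nlinarith
    have := Real.add_one_le_exp (Real.log L / L)
    linarith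
  have h8 : 0 ≤ 1 - 1 / (32 * (L : ℝ)) := by
    rw [sub_nonneg, div_le_one (by positivity)]; linarith
  calc (1 : ℝ) ≤ (1 - 1 / (32 * L)) * (1 + 1 / (2 * L)) := by
        have h9 : (0 : ℝ) < 1 / L := by positivity
        have h10 : (1 : ℝ) / L ≤ 1 / 2 := by
          apply div_le_div_of_nonneg_left <;> linarith
        have e1 : (1 : ℝ) / (32 * L) = (1 / L) / 32 := by field_simp
        have e2 : (1 : ℝ) / (2 * L) = (1 / L) / 2 := by field_simp
        rw [e1, e2]
        nlinarith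
    _ ≤ _ := mul_le_mul_of_nonneg_left h4 h8

/-- General one-letter inequality: for nonnegative reals `a`, `b` and `p : Prop`. -/
lemma letter (hL : 2 ≤ L) (a b : Fin L → ℝ) (ha : ∀ x, 0 ≤ a x) (hb : ∀ x, 0 ≤ b x)
    {e : ℝ} (he : e = 1 / (2 * L)) (p : Prop) [Decidable p] :
    ∑ x, ∑ y, (if (x = y ↔ p) then (a x * b y) ^ (1 - e) else 0) ≤
      ((1 - 1 / (32 * L)) * ((L : ℝ) ^ e) ^ 2) * ((∑ x, a x) * (∑ x, b x)) ^ (1 - e) := by
  have hL' : (2 : ℝ) ≤ L := by exact_mod_cast hL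
  have he0 : 0 < e := by rw [he]; positivity
  have he2 : 2 * e ≤ 1 := by
    rw [he, mul_one_div, div_le_one (by positivity)]; linarith
  have hsa0 : 0 ≤ ∑ x, a x := sum_nonneg (fun x _ => ha x)
  have hsb0 : 0 ≤ ∑ x, b x := sum_nonneg (fun x _ => hb x)
  have h8 : 0 ≤ 1 - 1 / (32 * (L : ℝ)) := by
    rw [sub_nonneg, div_le_one (by positivity)]; linarith
  rcases hsa0.eq_or_lt with h | hsa
  · have h1 : ∀ x, a x = 0 := by
      intro x
      exact (sum_eq_zero_iff_of_nonneg (fun x _ => ha x)).1 h.symm x (mem_univ x)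
    have h2 : ∑ x, ∑ y, (if (x = y ↔ p) then (a x * b y) ^ (1 - e) else 0) = 0 := by
      apply sum_eq_zero; intro x _; apply sum_eq_zero; intro y _
      rw [h1 x, zero_mul, Real.zero_rpow (by linarith)]; simp
    rw [h2]; positivity
  rcases hsb0.eq_or_lt with h | hsb
  · have h1 : ∀ x, b x = 0 := by
      intro x
      exact (sum_eq_zero_iff_of_nonneg (fun x _ => hb x)).1 h.symm x (mem_univ x)
    have h2 : ∑ x, ∑ y, (if (x = y ↔ p) then (a x * b y) ^ (1 - e) else 0) = 0 := by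
      apply sum_eq_zero; intro x _; apply sum_eq_zero; intro y _
      rw [h1 y, mul_zero, Real.zero_rpow (by linarith)]; simp
    rw [h2]; positivity
  set sa := ∑ x, a x with hsadef
  set sb := ∑ x, b x with hsbdef
  set a' : Fin L → ℝ := fun x => a x / sa with ha'
  set b' : Fin L → ℝ := fun x => b x / sb with hb'
  have ha'0 : ∀ x, 0 ≤ a' x := fun x => div_nonneg (ha x) hsa.le
  have hb'0 : ∀ x, 0 ≤ b' x := fun x => div_nonneg (hb x) hsb.le
  have hsa' : ∑ x, a' x = 1 := by rw [ha', ← sum_div, ← hsadef, div_self hsa.ne']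
  have hsb' : ∑ x, b' x = 1 := by rw [hb', ← sum_div, ← hsbdef, div_self hsb.ne']
  have hkey : ∑ x, ∑ y, (if (x = y ↔ p) then (a' x) ^ (1 - e) * (b' y) ^ (1 - e) else 0) ≤
      (1 - 1 / (32 * L)) * ((L : ℝ) ^ e) ^ 2 := by
    by_cases hp : p
    · have h1 : ∑ x, ∑ y, (if (x = y ↔ p) then (a' x) ^ (1 - e) * (b' y) ^ (1 - e) else 0) =
          ∑ x, (a' x) ^ (1 - e) * (b' x) ^ (1 - e) := by
        apply sum_congr rfl; intro x _
        simp [hp]
      rw [h1]
      exact letter_eq hL a' b' ha'0 hb'0 hsa' hsb' he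
    · have h1 : ∑ x, ∑ y, (if (x = y ↔ p) then (a' x) ^ (1 - e) * (b' y) ^ (1 - e) else 0) =
          (∑ x, (a' x) ^ (1 - e)) * (∑ x, (b' x) ^ (1 - e)) -
            ∑ x, (a' x) ^ (1 - e) * (b' x) ^ (1 - e) := by
        rw [sum_mul_sum, ← sum_sub_distrib]
        apply sum_congr rfl; intro x _
        have h2 : ∑ y, (a' x) ^ (1 - e) * (b' y) ^ (1 - e) - (a' x) ^ (1 - e) * (b' x) ^ (1 - e) =
            ∑ y ∈ univ.erase x, (a' x) ^ (1 - e) * (b' y) ^ (1 - e) := by
          rw [← add_sum_erase _ _ (mem_univ x)]; ring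
        rw [h2, ← filter_ne' univ x, sum_filter]
        apply sum_congr rfl; intro y _
        simp only [hp, iff_false]
        congr 1
        exact propext ⟨fun h => fun h' => h h'.symm, fun h => fun h' => h h'.symm⟩
      rw [h1]
      exact letter_ne hL a' b' ha'0 hb'0 hsa' hsb' he
  have hsc : ∀ x y, (a x * b y) ^ (1 - e) =
      (sa * sb) ^ (1 - e) * ((a' x) ^ (1 - e) * (b' y) ^ (1 - e)) := by
    intro x y
    rw [← Real.mul_rpow (ha'0 x) (hb'0 y), ← Real.mul_rpow (by positivity)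
      (mul_nonneg (ha'0 x) (hb'0 y))]
    congr 1
    simp only [ha', hb']
    field_simp
  calc ∑ x, ∑ y, (if (x = y ↔ p) then (a x * b y) ^ (1 - e) else 0) =
      (sa * sb) ^ (1 - e) *
        ∑ x, ∑ y, (if (x = y ↔ p) then (a' x) ^ (1 - e) * (b' y) ^ (1 - e) else 0) := by
        rw [mul_sum]; apply sum_congr rfl; intro x _
        rw [mul_sum]; apply sum_congr rfl; intro y _
        rw [hsc]; split_ifs <;> simp
    _ ≤ (sa * sb) ^ (1 - e) * ((1 - 1 / (32 * L)) * ((L : ℝ) ^ e) ^ 2) :=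
        mul_le_mul_of_nonneg_left hkey (by positivity)
    _ = _ := by ring

end

end Pool.Agent.SetInt
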