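import Pool.Agent.SetInt.Pair

/-!
# The lower bound
-/

namespace Pool.Agent.SetInt

open Finset

/-! ### Information bound -/

lemma two_pow_le_choose {a n : ℕ} (ha : 1 ≤ a) (hn : 2 * a ≤ n) : 2 ^ a ≤ n.choose a := by
  have h1 : Nat.centralBinom a ≤ n.choose a := by
    rw [Nat.centralBinom_eq_two_mul_choose]
    exact Nat.choose_le_choose a hn
  refine le_trans ?_ h1
  have h2 := Nat.four_pow_le_two_mul_self_mul_centralBinom a (by omega)
  have h3 : 2 * a ≤ 2 ^ a := by
    obtain ⟨b, rfl⟩ : ∃ b, a = b + 1 := ⟨a - 1, by omega⟩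
    have : b + 1 ≤ 2 ^ b := Nat.lt_two_pow_self
    rw [pow_succ]; omega
  have h4 : (2 ^ a) * 2 ^ a ≤ (2 ^ a) * Nat.centralBinom a := by
    calc (2 ^ a) * 2 ^ a = 4 ^ a := by rw [← mul_pow]; norm_num
      _ ≤ 2 * a * Nat.centralBinom a := h2
      _ ≤ _ := Nat.mul_le_mul_right _ h3
  exact Nat.le_of_mul_le_mul_left h4 (by positivity)

/-- Space is at least the information content. -/
theorem info {S w N C T : ℕ} (hN : 3 ≤ N) (hw : N ^ 2 ≤ 2 ^ w) (𝒟 : DataStructure S w)
    (h : 𝒟.Solves N C T) : N ≤ 5 * (w * S) := by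
  set a := N / 3 with ha
  have hNw : N ≤ 2 ^ w := le_trans (by nlinarith) hw
  obtain ⟨V, -, hV⟩ := exists_subset_card_eq (s := (univ : Finset (Fin (2 ^ w)))) (n := N - a)
    (by rw [card_univ, Fintype.card_fin]; omega)
  have hinj : Set.InjOn (fun A : Finset (Fin (2 ^ w)) => 𝒟.mem 2 ![A, V])
      (powersetCard a V : Finset (Finset (Fin (2 ^ w)))) := by
    intro A hA B hB hAB
    rw [mem_coe, mem_powersetCard] at hA hB
    have key : ∀ A : Finset (Fin (2 ^ w)), A ⊆ V ∧ A.card = a →
        (𝒟.query 2 0 1).run (𝒟.mem 2 ![A, V]) = A := by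
      intro A hA
      have h1 := (h 2 ![A, V] (by omega) (by
        rw [Fin.sum_univ_two]
        simp only [Matrix.cons_val_zero, Matrix.cons_val_one]
        rw [hA.2, hV]; omega) 0 1 (by decide)).1
      rw [h1]
      simp only [Matrix.cons_val_zero, Matrix.cons_val_one]
      exact inter_eq_left.2 hA.1
    have h2 := key A hA
    have h3 := key B hB
    simp only at hAB
    rw [hAB, h3] at h2
    exact h2.symm
  have h1 : (powersetCard a V).card ≤ Fintype.card (Fin S → Fin (2 ^ w)) := by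
    rw [← card_image_of_injOn hinj]
    exact card_le_univ _
  rw [card_powersetCard, hV, Fintype.card_fun, Fintype.card_fin, Fintype.card_fin, ← pow_mul] at h1
  have h2 : 2 ^ a ≤ 2 ^ (w * S) := (two_pow_le_choose (by omega) (by omega)).trans h1
  have h3 : a ≤ w * S := (Nat.pow_le_pow_iff_right (by norm_num)).1 h2
  omega

/-! ### The family of a point of `(Fin k → Fin L)^m` -/

section
variable {k L m S w : ℕ}

/-- `m` sets of size `k` and one additional set `Z`. -/
def fam (φ : Fin k × Fin L ↪ Fin (2 ^ w)) (Z : Finset (Fin (2 ^ w)))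
    (G : Fin m → Fin k → Fin L) : Fin (m + 1) → Finset (Fin (2 ^ w)) :=
  Fin.cons Z (fun i => enc φ (G i))

lemma fam_succ (φ : Fin k × Fin L ↪ Fin (2 ^ w)) (Z : Finset (Fin (2 ^ w)))
    (G : Fin m → Fin k → Fin L) (i : Fin m) : fam φ Z G i.succ = enc φ (G i) := by
  simp [fam]

lemma sum_fam (φ : Fin k × Fin L ↪ Fin (2 ^ w)) (Z : Finset (Fin (2 ^ w)))
    (G : Fin m → Fin k → Fin L) : ∑ i, (fam φ Z G i).card = Z.card + m * k := by
  rw [Fin.sum_univ_succ]
  simp [fam, card_enc]

lemma fam_update (φ : Fin k × Fin L ↪ Fin (2 ^ w)) (Z : Finset (Fin (2 ^ w)))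
    (G : Fin m → Fin k → Fin L) (i : Fin m) (x : Fin k → Fin L) :
    fam φ Z (Function.update G i x) = Function.update (fam φ Z G) i.succ (enc φ x) := by
  rw [fam, fam, ← Fin.cons_update]
  congr 1
  exact Function.comp_update (enc φ) G i x

lemma light_update (𝒟 : DataStructure S w) (D : ℕ) (F : Fin m → Finset (Fin (2 ^ w)))
    {i j : Fin m} (hij : i ≠ j) (c : Fin S) (A B : Finset (Fin (2 ^ w)))
    (hA : A.card = (F i).card) (hB : B.card = (F j).card) :
    𝒟.Light D (Function.update (Function.update F i A) j B) i j c ↔ 𝒟.Light D F i j c := by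
  have h1 : (Function.update (Function.update F i A) j B i).card = (F i).card := by
    rw [Function.update_of_ne hij, Function.update_self, hA]
  have h2 : (Function.update (Function.update F i A) j B j).card = (F j).card := by
    rw [Function.update_self, hB]
  have h3 : ∀ A' B', Function.update (Function.update (Function.update (Function.update F i A) j B)
      i A') j B' = Function.update (Function.update F i A') j B' := by
    intro A' B'
    funext l
    by_cases hl : l = j
    · subst hl; simp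
    · by_cases hl' : l = i
      · subst hl'; simp [hij]
      · simp [hl, hl']
  unfold DataStructure.Light
  simp only [h1, h2, h3]

open Classical in
/-- heavy cells that are probed by the query `(i + 1, j + 1)` on `fam φ Z G`. -/
noncomputable def hp (𝒟 : DataStructure S w) (D : ℕ) (φ : Fin k × Fin L ↪ Fin (2 ^ w))
    (Z : Finset (Fin (2 ^ w))) (G : Fin m → Fin k → Fin L) (i j : Fin m) : Finset (Fin S) :=
  (𝒟.query (m + 1) i.succ j.succ).probed (𝒟.mem (m + 1) (fam φ Z G)) ∩
    univ.filter (fun c => ¬ 𝒟.Light D (fam φ Z G) i.succ j.succ c)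

lemma sum_hp_le (𝒟 : DataStructure S w) (D : ℕ) (φ : Fin k × Fin L ↪ Fin (2 ^ w))
    (Z : Finset (Fin (2 ^ w))) (G : Fin m → Fin k → Fin L) :
    ∑ p ∈ univ.filter (fun p : Fin m × Fin m => p.1 < p.2), (hp 𝒟 D φ Z G p.1 p.2).card ≤
      (𝒟.heavy D (fam φ Z G)).card := by
  classical
  rw [← card_sigma (univ.filter (fun p : Fin m × Fin m => p.1 < p.2))
    (fun p => hp 𝒟 D φ Z G p.1 p.2)]
  apply card_le_card_of_injOn (fun z => (z.2, z.1.1.succ, z.1.2.succ))
  · intro z hz
    rw [mem_coe, mem_sigma, mem_filter, hp, mem_inter, mem_filter] at hz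
    rw [mem_coe, DataStructure.heavy, mem_filter]
    exact ⟨mem_univ _, Fin.succ_lt_succ_iff.2 hz.1.2, hz.2.1, hz.2.2.2⟩
  · rintro ⟨⟨i, j⟩, c⟩ _ ⟨⟨i', j'⟩, c'⟩ _ h
    simp only [Prod.mk.injEq, Fin.succ_inj] at h
    obtain ⟨h1, h2, h3⟩ := h
    subst h1 h2 h3
    rfl

end

/-- For one pair, a quarter of all families have more than `σ` heavy probed cells. -/
theorem quarter {S w C D T σ t L k m N : ℕ} (hk : k = t * L) (hT : 1 ≤ T) (hC : 1 ≤ C)
    (hD : 1 ≤ D) (ht : t = 128 * T) (hL : L = 192 * C * D) (hσ : w * σ ≤ 2 * T)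
    (φ : Fin k × Fin L ↪ Fin (2 ^ w)) (Z : Finset (Fin (2 ^ w))) (hZ : Z.card + m * k = N)
    (hmN : m + 1 ≤ N) (𝒟 : DataStructure S w) (h𝒟 : 𝒟.Solves N C T) (i j : Fin m) (hij : i ≠ j) :
    Fintype.card (Fin m → Fin k → Fin L) ≤
      4 * ∑ G : Fin m → Fin k → Fin L, if σ < (hp 𝒟 D φ Z G i j).card then 1 else 0 := by
  classical
  set f : (Fin m → Fin k → Fin L) → ℕ :=
    fun G => if σ < (hp 𝒟 D φ Z G i j).card then 1 else 0 with hf
  have hsij : i.succ ≠ j.succ := fun h => hij (Fin.succ_injective _ h)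
  have h1 : ∀ G : Fin m → Fin k → Fin L, L ^ k * L ^ k ≤
      4 * ∑ x : Fin k → Fin L, ∑ y : Fin k → Fin L,
        f (Function.update (Function.update G i x) j y) := by
    intro G
    have hG : ∀ x y : Fin k → Fin L, fam φ Z (Function.update (Function.update G i x) j y) =
        Function.update (Function.update (fam φ Z G) i.succ (enc φ x)) j.succ (enc φ y) := by
      intro x y
      rw [fam_update, fam_update]
    have hci : (fam φ Z G i.succ).card = k := by rw [fam_succ, card_enc]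
    have hcj : (fam φ Z G j.succ).card = k := by rw [fam_succ, card_enc]
    have hsol : ∀ x y : Fin k → Fin L, _ := fun x y =>
      h𝒟 (m + 1) (fam φ Z (Function.update (Function.update G i x) j y)) hmN
        (by rw [sum_fam, hZ]) i.succ j.succ hsij
    have hi : ∀ x y : Fin k → Fin L,
        fam φ Z (Function.update (Function.update G i x) j y) i.succ = enc φ x := by
      intro x y
      rw [fam_succ, Function.update_of_ne hij, Function.update_self]
    have hj : ∀ x y : Fin k → Fin L,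
        fam φ Z (Function.update (Function.update G i x) j y) j.succ = enc φ y := by
      intro x y
      rw [fam_succ, Function.update_self]
    have hpair := pair (σ := σ) hk hT hC hD ht hL hσ φ
      (fun x y => 𝒟.mem (m + 1) (fam φ Z (Function.update (Function.update G i x) j y)))
      (𝒟.query (m + 1) i.succ j.succ)
      (univ.filter (fun c => ¬ 𝒟.Light D (fam φ Z G) i.succ j.succ c))
      (by
        intro c hc
        rw [mem_filter, not_and, not_not] at hc
        obtain ⟨P, Q, v, hPQ⟩ := hc (mem_univ _)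
        refine ⟨fun r x => P r (enc φ x), fun r y => Q r (enc φ y), v, fun x y => ?_⟩
        have h2 := hPQ (enc φ x) (enc φ y) (by rw [hci, card_enc]) (by rw [hcj, card_enc])
        refine ⟨h2.1, fun r hr1 hr2 => ?_⟩
        rw [hG]
        exact h2.2 r hr1 hr2)
      (by
        intro x y
        rw [(hsol x y).1, hi, hj])
      (by
        intro x y
        refine (hsol x y).2.trans ?_
        rw [hi, hj]
        apply Nat.mul_le_mul_left
        omega)
    refine hpair.trans (le_of_eq ?_)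
    congr 1
    rw [card_filter, ← Fintype.sum_prod_type']
    apply sum_congr rfl
    intro z _
    rw [hf]
    simp only [hp]
    have h3 : ∀ c, 𝒟.Light D (fam φ Z (Function.update (Function.update G i z.1) j z.2))
        i.succ j.succ c ↔ 𝒟.Light D (fam φ Z G) i.succ j.succ c := by
      intro c
      rw [hG]
      exact light_update 𝒟 D _ hsij c _ _ (by rw [hci, card_enc]) (by rw [hcj, card_enc])
    simp only [h3]
  have h2 : ∑ G : Fin m → Fin k → Fin L, ∑ x : Fin k → Fin L, ∑ y : Fin k → Fin L,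
      f (Function.update (Function.update G i x) j y) = (L ^ k * L ^ k) * ∑ G, f G := by
    have h3 := sum_update i (fun G : Fin m → Fin k → Fin L =>
      ∑ y : Fin k → Fin L, f (Function.update G j y))
    rw [h3, sum_update j f]
    simp only [smul_eq_mul, Fintype.card_fun, Fintype.card_fin]
    ring
  have hL0 : 0 < L := by rw [hL]; positivity
  have h3 : Fintype.card (Fin m → Fin k → Fin L) * (L ^ k * L ^ k) ≤
      (4 * ∑ G, f G) * (L ^ k * L ^ k) := by
    calc Fintype.card (Fin m → Fin k → Fin L) * (L ^ k * L ^ k) =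
        ∑ _G : Fin m → Fin k → Fin L, L ^ k * L ^ k := by
          rw [sum_const, card_univ, smul_eq_mul]
      _ ≤ ∑ G : Fin m → Fin k → Fin L, 4 * ∑ x : Fin k → Fin L, ∑ y : Fin k → Fin L,
          f (Function.update (Function.update G i x) j y) := sum_le_sum (fun G _ => h1 G)
      _ = 4 * ((L ^ k * L ^ k) * ∑ G, f G) := by rw [← mul_sum, h2]
      _ = _ := by ring
  exact Nat.le_of_mul_le_mul_right h3 (by positivity)

/-- The number of pairs `i < j`. -/
lemma card_pairs_lt (m : ℕ) :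
    2 * (univ.filter (fun p : Fin m × Fin m => p.1 < p.2)).card = m * (m - 1) := by
  have h1 : (univ.filter (fun p : Fin m × Fin m => p.1 < p.2)).card =
      (univ.filter (fun p : Fin m × Fin m => p.2 < p.1)).card := by
    apply card_bij (fun p _ => (p.2, p.1))
    · intro p hp; rw [mem_filter] at hp ⊢; exact ⟨mem_univ _, hp.2⟩
    · rintro ⟨a, b⟩ _ ⟨c, d⟩ _ h
      simp only [Prod.mk.injEq] at h
      rw [h.1, h.2]
    · rintro ⟨a, b⟩ hp
      rw [mem_filter] at hp
      exact ⟨(b, a), mem_filter.2 ⟨mem_univ _, hp.2⟩, rfl⟩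
  have h2 : (univ.filter (fun p : Fin m × Fin m => p.1 < p.2)).card +
      (univ.filter (fun p : Fin m × Fin m => p.2 < p.1)).card =
      (univ : Finset (Fin m)).offDiag.card := by
    rw [← card_union_of_disjoint]
    · congr 1
      ext p
      rw [mem_union, mem_filter, mem_filter, mem_offDiag]
      constructor
      · rintro (h | h)
        · exact ⟨mem_univ _, mem_univ _, h.2.ne⟩
        · exact ⟨mem_univ _, mem_univ _, h.2.ne'⟩
      · rintro ⟨_, _, h⟩
        rcases lt_or_gt_of_ne h with h | h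
        · exact Or.inl ⟨mem_univ _, h⟩
        · exact Or.inr ⟨mem_univ _, h⟩
    · rw [Finset.disjoint_left]
      intro p hp hp'
      rw [mem_filter] at hp hp'
      exact absurd (hp.2.trans hp'.2) (lt_irrefl _)
  rw [offDiag_card, card_univ, Fintype.card_fin] at h2
  rw [Nat.mul_sub, mul_one]
  omega

/-- The lower bound. -/
theorem main {S w N C T D H : ℕ} (hN : 3 ≤ N) (hw : N ^ 2 ≤ 2 ^ w) (hT : 1 ≤ T) (hC : 1 ≤ C)
    (hD : 1 ≤ D) (hH : 1 ≤ H) (𝒟 : DataStructure S w) (h𝒟 : 𝒟.Solves N C T)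
    (hheavy : ∀ (m : ℕ) (F : Fin m → Finset (Fin (2 ^ w))), m ≤ N → ∑ i, (F i).card = N →
      (𝒟.heavy D F).card ≤ H * S) :
    N ^ 2 ≤ 2 * 10 ^ 10 * (C ^ 2 * D ^ 2 * w) * (H * S * T) := by
  have hinfo := info hN hw 𝒟 h𝒟
  have hw0 : 1 ≤ w := by
    by_contra h
    have : w = 0 := by omega
    rw [this] at hw
    nlinarith
  set t := 128 * T with ht
  set L := 192 * C * D with hL
  set k := t * L with hk
  have hCD : 1 ≤ C * D := Nat.mul_pos hC hD
  have hL1 : 1 ≤ L := by rw [hL]; nlinarith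
  have hk1 : 1 ≤ k := by rw [hk]; exact Nat.mul_pos (by omega) hL1
  have hkval : k = 24576 * (T * (C * D)) := by rw [hk, ht, hL]; ring
  rcases lt_or_ge N (2 * k) with hNk | hNk
  · -- large `T`
    have h1 : N ^ 2 ≤ (5 * (w * S)) * (2 * k) := by
      rw [sq]; exact Nat.mul_le_mul hinfo hNk.le
    have h2 : (5 * (w * S)) * (2 * k) = 245760 * ((C * D) * w * (S * T)) := by rw [hkval]; ring
    have h3 : (C * D) * w * (S * T) ≤ (C ^ 2 * D ^ 2 * w) * (H * S * T) := by
      have h4 : C * D ≤ C ^ 2 * D ^ 2 := by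
        rw [← mul_pow, sq]; nlinarith
      have h5 : S * T ≤ H * S * T := by
        have : S * T * 1 ≤ S * T * H := Nat.mul_le_mul_left _ hH
        calc S * T = S * T * 1 := by ring
          _ ≤ S * T * H := this
          _ = _ := by ring
      exact Nat.mul_le_mul (Nat.mul_le_mul_right _ h4) h5
    calc N ^ 2 ≤ 245760 * ((C * D) * w * (S * T)) := by rw [← h2]; exact h1
      _ ≤ 2 * 10 ^ 10 * ((C ^ 2 * D ^ 2 * w) * (H * S * T)) := Nat.mul_le_mul (by norm_num) h3
      _ = _ := by ring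
  -- small `T`
  set m := N / k with hm
  set σ := 2 * T / w with hσ
  have hm2 : 2 ≤ m := by
    rw [hm, Nat.le_div_iff_mul_le (by omega)]; exact hNk
  have hLk : L ≤ k := by rw [hk]; nlinarith
  have hkL : k * L ≤ 2 ^ w := by
    calc k * L ≤ k * k := Nat.mul_le_mul_left _ hLk
      _ ≤ N * N := Nat.mul_le_mul (by omega) (by omega)
      _ = N ^ 2 := by ring
      _ ≤ _ := hw
  have hNw : N ≤ 2 ^ w := le_trans (by nlinarith) hw
  let φ : Fin k × Fin L ↪ Fin (2 ^ w) :=
    (finProdFinEquiv.toEmbedding).trans (Fin.castLEEmb hkL)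
  have hmk : m * k ≤ N := Nat.div_mul_le_self N k
  have hmN : m + 1 ≤ N := by
    have hk2 : 2 ≤ k := by
      have : 1 ≤ T * (C * D) := Nat.mul_pos hT hCD
      omega
    nlinarith
  obtain ⟨Z, -, hZ⟩ := exists_subset_card_eq (s := (univ : Finset (Fin (2 ^ w))))
    (n := N - m * k) (by rw [card_univ, Fintype.card_fin]; omega)
  have hZ' : Z.card + m * k = N := by omega
  have hσw : w * σ ≤ 2 * T := by rw [hσ]; exact Nat.mul_div_le _ _
  set 𝒢 := Fintype.card (Fin m → Fin k → Fin L) with h𝒢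
  have h𝒢0 : 0 < 𝒢 := by
    rw [h𝒢, Fintype.card_fun, Fintype.card_fun, Fintype.card_fin, Fintype.card_fin,
      Fintype.card_fin]
    positivity
  set E := univ.filter (fun p : Fin m × Fin m => p.1 < p.2) with hE
  have h1 : ∀ p ∈ E, (σ + 1) * 𝒢 ≤
      4 * ∑ G : Fin m → Fin k → Fin L, (hp 𝒟 D φ Z G p.1 p.2).card := by
    intro p hpE
    rw [hE, mem_filter] at hpE
    have h2 := quarter hk hT hC hD ht hL hσw φ Z hZ' hmN 𝒟 h𝒟 p.1 p.2 hpE.2.ne
    calc (σ + 1) * 𝒢 ≤ (σ + 1) * (4 * ∑ G : Fin m → Fin k → Fin L,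
          if σ < (hp 𝒟 D φ Z G p.1 p.2).card then 1 else 0) := Nat.mul_le_mul_left _ h2
      _ = 4 * ∑ G : Fin m → Fin k → Fin L,
          (σ + 1) * (if σ < (hp 𝒟 D φ Z G p.1 p.2).card then 1 else 0) := by
          rw [← mul_sum]; ring
      _ ≤ _ := by
          apply Nat.mul_le_mul_left
          apply sum_le_sum
          intro G _
          split_ifs with h
          · omega
          · omega
  have h2 : E.card * ((σ + 1) * 𝒢) ≤ 4 * (𝒢 * (H * S)) := by
    calc E.card * ((σ + 1) * 𝒢) = ∑ p ∈ E, (σ + 1) * 𝒢 := by rw [sum_const, smul_eq_mul]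
      _ ≤ ∑ p ∈ E, 4 * ∑ G : Fin m → Fin k → Fin L, (hp 𝒟 D φ Z G p.1 p.2).card :=
          sum_le_sum h1
      _ = 4 * ∑ G : Fin m → Fin k → Fin L, ∑ p ∈ E, (hp 𝒟 D φ Z G p.1 p.2).card := by
          rw [← mul_sum, sum_comm]
      _ ≤ 4 * ∑ G : Fin m → Fin k → Fin L, H * S := by
          apply Nat.mul_le_mul_left
          apply sum_le_sum
          intro G _
          exact (sum_hp_le 𝒟 D φ Z G).trans (hheavy _ _ hmN (by rw [sum_fam, hZ']))
      _ = _ := by rw [sum_const, card_univ, smul_eq_mul]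
  have h3 : E.card * (σ + 1) ≤ 4 * (H * S) := by
    have h4 : (E.card * (σ + 1)) * 𝒢 ≤ (4 * (H * S)) * 𝒢 := by
      calc _ = E.card * ((σ + 1) * 𝒢) := by ring
        _ ≤ _ := h2
        _ = _ := by ring
    exact Nat.le_of_mul_le_mul_right h4 h𝒢0
  have h4 : 2 * E.card = m * (m - 1) := card_pairs_lt m
  have h5 : m * m ≤ 4 * E.card := by
    have : m * m ≤ 2 * (m * (m - 1)) := by
      obtain ⟨q, hq⟩ : ∃ q, m = q + 2 := ⟨m - 2, by omega⟩
      rw [hq]
      have : q + 2 - 1 = q + 1 := by omega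
      rw [this]
      nlinarith
    omega
  have h6 : 2 * T ≤ w * (σ + 1) := by
    rw [hσ]
    exact (Nat.lt_mul_div_succ (2 * T) (by omega : 0 < w)).le
  -- `T m² ≤ 8 w H S`
  have h7 : T * (m * m) ≤ 8 * (w * (H * S)) := by
    have h8 : (2 * T) * (m * m) ≤ (w * (σ + 1)) * (4 * E.card) := Nat.mul_le_mul h6 h5
    have h9 : (w * (σ + 1)) * (4 * E.card) ≤ 16 * (w * (H * S)) := by
      calc (w * (σ + 1)) * (4 * E.card) = 4 * w * (E.card * (σ + 1)) := by ring
        _ ≤ 4 * w * (4 * (H * S)) := Nat.mul_le_mul_left _ h3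
        _ = _ := by ring
    have h10 := h8.trans h9
    nlinarith
  have h8 : N ≤ 2 * (m * k) := by
    have h9 : N < (m + 1) * k := by
      rw [hm]
      have := Nat.lt_mul_div_succ N (by omega : 0 < k)
      rw [mul_comm]; exact this
    have h10 : (m + 1) * k ≤ 2 * (m * k) := by nlinarith
    omega
  calc N ^ 2 ≤ (2 * (m * k)) ^ 2 := Nat.pow_le_pow_left h8 2
    _ = 4 * 24576 ^ 2 * (T * (C ^ 2 * D ^ 2)) * (T * (m * m)) := by rw [hkval]; ring
    _ ≤ 4 * 24576 ^ 2 * (T * (C ^ 2 * D ^ 2)) * (8 * (w * (H * S))) := Nat.mul_le_mul_left _ h7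
    _ = (32 * 24576 ^ 2) * ((C ^ 2 * D ^ 2 * w) * (H * S * T)) := by ring
    _ ≤ (2 * 10 ^ 10) * ((C ^ 2 * D ^ 2 * w) * (H * S * T)) :=
        Nat.mul_le_mul_right _ (by norm_num)
    _ = _ := by ring

end Pool.Agent.SetInt
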