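import Pool.Agent.SetInt.Letter

/-!
# The rectangle lemma
-/

namespace Pool.Agent.SetInt

open Finset Real

section
variable {L : ℕ}

/-- slice of a set of functions -/
noncomputable def slice {k : ℕ} (A : Finset (Fin (k + 1) → Fin L)) (x : Fin L) :
    Finset (Fin k → Fin L) :=
  univ.filter (fun X => (Fin.cons x X : Fin (k + 1) → Fin L) ∈ A)

lemma card_slice {k : ℕ} (A : Finset (Fin (k + 1) → Fin L)) :
    A.card = ∑ x, (slice A x).card := by
  have h1 : A.card = ∑ X : Fin (k + 1) → Fin L, if X ∈ A then 1 else 0 := by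
    rw [← sum_filter, filter_mem_eq_inter, univ_inter, card_eq_sum_ones]
  rw [h1, ← (Fin.consEquiv (fun _ : Fin (k + 1) => Fin L)).sum_comp, Fintype.sum_prod_type]
  apply sum_congr rfl
  intro x _
  rw [slice, card_filter]
  rfl

lemma card_pairs {k : ℕ} (A B : Finset (Fin (k + 1) → Fin L)) (p : Fin (k + 1) → Prop)
    [DecidablePred p] :
    ((A ×ˢ B).filter (fun Z => ∀ β, (Z.1 β = Z.2 β ↔ p β))).card =
      ∑ x, ∑ y, if (x = y ↔ p 0) then
        ((slice A x ×ˢ slice B y).filter (fun Z => ∀ β, (Z.1 β = Z.2 β ↔ p β.succ))).card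
        else 0 := by
  have h1 : ((A ×ˢ B).filter (fun Z => ∀ β, (Z.1 β = Z.2 β ↔ p β))).card =
      ∑ X : Fin (k + 1) → Fin L, ∑ Y : Fin (k + 1) → Fin L,
        if (X ∈ A ∧ Y ∈ B ∧ ∀ β, (X β = Y β ↔ p β)) then 1 else 0 := by
    rw [card_filter, ← Fintype.sum_prod_type', ← sum_subset (subset_univ (A ×ˢ B))]
    · apply sum_congr rfl
      intro Z hZ
      rw [mem_product] at hZ
      simp only [hZ.1, hZ.2, true_and]
    · intro Z _ hZ
      rw [mem_product] at hZ
      rw [if_neg]
      intro h; exact hZ ⟨h.1, h.2.1⟩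
  have h2 : ∀ (A B : Finset (Fin k → Fin L)), ((A ×ˢ B).filter
      (fun Z => ∀ β : Fin k, (Z.1 β = Z.2 β ↔ p β.succ))).card =
      ∑ X : Fin k → Fin L, ∑ Y : Fin k → Fin L,
        if (X ∈ A ∧ Y ∈ B ∧ ∀ β : Fin k, (X β = Y β ↔ p β.succ)) then 1 else 0 := by
    intro A B
    rw [card_filter, ← Fintype.sum_prod_type', ← sum_subset (subset_univ (A ×ˢ B))]
    · apply sum_congr rfl
      intro Z hZ
      rw [mem_product] at hZ
      simp only [hZ.1, hZ.2, true_and]
    · intro Z _ hZ
      rw [mem_product] at hZ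
      rw [if_neg]
      intro h; exact hZ ⟨h.1, h.2.1⟩
  rw [h1, ← (Fin.consEquiv (fun _ : Fin (k + 1) => Fin L)).sum_comp, Fintype.sum_prod_type]
  apply sum_congr rfl
  intro x _
  have h3 : ∀ X : Fin k → Fin L, (∑ Y : Fin (k + 1) → Fin L,
      if ((Fin.consEquiv (fun _ : Fin (k + 1) => Fin L)) (x, X) ∈ A ∧ Y ∈ B ∧
        ∀ β, ((Fin.consEquiv (fun _ : Fin (k + 1) => Fin L)) (x, X) β = Y β ↔ p β)) then 1 else 0) =
      ∑ y, ∑ Y : Fin k → Fin L, if (x = y ↔ p 0) then
        (if (X ∈ slice A x ∧ Y ∈ slice B y ∧ ∀ β : Fin k, (X β = Y β ↔ p β.succ)) then 1 else 0)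
        else 0 := by
    intro X
    rw [← (Fin.consEquiv (fun _ : Fin (k + 1) => Fin L)).sum_comp, Fintype.sum_prod_type]
    apply sum_congr rfl
    intro y _
    apply sum_congr rfl
    intro Y _
    rw [← ite_and]
    apply if_congr _ rfl rfl
    rw [Fin.forall_fin_succ]
    simp only [slice, mem_filter, mem_univ, true_and, Fin.consEquiv_apply, Fin.cons_zero,
      Fin.cons_succ]
    tauto
  rw [sum_congr rfl (fun X _ => h3 X), sum_comm]
  apply sum_congr rfl
  intro y _
  rw [h2]
  split_ifs with h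
  · rfl
  · simp

/-- The rectangle lemma. -/
theorem rect (hL : 2 ≤ L) {e : ℝ} (he : e = 1 / (2 * L)) : ∀ (k : ℕ)
    (A B : Finset (Fin k → Fin L)) (p : Fin k → Prop) [DecidablePred p],
    (((A ×ˢ B).filter (fun Z => ∀ β, (Z.1 β = Z.2 β ↔ p β))).card : ℝ) ≤
      ((1 - 1 / (32 * L)) * ((L : ℝ) ^ e) ^ 2) ^ k * ((A.card : ℝ) * B.card) ^ (1 - e) := by
  have hL' : (2 : ℝ) ≤ L := by exact_mod_cast hL
  have he0 : 0 < e := by rw [he]; positivity
  have he2 : 2 * e ≤ 1 := by
    rw [he, mul_one_div, div_le_one (by positivity)]; linarith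
  have h8 : 0 ≤ 1 - 1 / (32 * (L : ℝ)) := by
    rw [sub_nonneg, div_le_one (by positivity)]; linarith
  intro k
  induction k with
  | zero =>
    intro A B p _
    have hA : A.card ≤ 1 := by
      calc A.card ≤ Fintype.card (Fin 0 → Fin L) := card_le_univ A
        _ = 1 := by simp
    have hB : B.card ≤ 1 := by
      calc B.card ≤ Fintype.card (Fin 0 → Fin L) := card_le_univ B
        _ = 1 := by simp
    have h1 : ((A ×ˢ B).filter (fun Z => ∀ β, (Z.1 β = Z.2 β ↔ p β))).card ≤ A.card * B.card := by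
      refine (card_filter_le _ _).trans ?_
      rw [card_product]
    have h2 : (((A ×ˢ B).filter (fun Z => ∀ β, (Z.1 β = Z.2 β ↔ p β))).card : ℝ) ≤
        (A.card : ℝ) * B.card := by exact_mod_cast h1
    rw [pow_zero, one_mul]
    refine h2.trans ?_
    have hA' : A.card = 0 ∨ A.card = 1 := by omega
    have hB' : B.card = 0 ∨ B.card = 1 := by omega
    have h9 : (1 : ℝ) - e ≠ 0 := by linarith
    rcases hA' with h | h <;> rcases hB' with h' | h' <;> rw [h, h'] <;>
      simp [Real.zero_rpow h9]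
  | succ k ih =>
    intro A B p _
    set C := (1 - 1 / (32 * L)) * ((L : ℝ) ^ e) ^ 2 with hC
    have hC0 : 0 ≤ C := by positivity
    rw [card_pairs, card_slice A, card_slice B]
    push_cast
    calc ∑ x, ∑ y, (if (x = y ↔ p 0) then
        (((slice A x ×ˢ slice B y).filter
          (fun Z => ∀ β : Fin k, (Z.1 β = Z.2 β ↔ p β.succ))).card : ℝ) else 0) ≤
        ∑ x, ∑ y, (if (x = y ↔ p 0) then
          C ^ k * (((slice A x).card : ℝ) * (slice B y).card) ^ (1 - e) else 0) := by
          apply sum_le_sum; intro x _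
          apply sum_le_sum; intro y _
          split_ifs with h
          · exact ih _ _ _
          · exact le_rfl
      _ = C ^ k * ∑ x, ∑ y, (if (x = y ↔ p 0) then
          (((slice A x).card : ℝ) * (slice B y).card) ^ (1 - e) else 0) := by
          rw [mul_sum]; apply sum_congr rfl; intro x _
          rw [mul_sum]; apply sum_congr rfl; intro y _
          split_ifs <;> simp
      _ ≤ C ^ k * (C * ((∑ x, ((slice A x).card : ℝ)) * (∑ x, ((slice B x).card : ℝ))) ^ (1 - e)) := by
          apply mul_le_mul_of_nonneg_left _ (by positivity)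
          exact letter hL (fun x => ((slice A x).card : ℝ)) (fun x => ((slice B x).card : ℝ))
            (fun x => by positivity) (fun x => by positivity) he (p 0)
      _ = _ := by rw [pow_succ]; ring

end

end Pool.Agent.SetInt
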