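import Pool.Agent.SetInt.Tree
import Pool.Agent.SetInt.Rect

/-!
# One pair of sets
-/

namespace Pool.Agent.SetInt

open Finset

/-- Resampling one coordinate. -/
lemma sum_update {ι α M : Type} [Fintype ι] [DecidableEq ι] [Fintype α] [AddCommMonoid M]
    (i : ι) (f : (ι → α) → M) :
    ∑ G : ι → α, ∑ v : α, f (Function.update G i v) = Fintype.card α • ∑ G : ι → α, f G := by
  classical
  let φ : (ι → α) × α → (ι → α) × α := fun Z => (Function.update Z.1 i Z.2, Z.1 i)
  have hφ : Function.Involutive φ := by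
    intro Z
    simp [φ]
  have h1 : ∑ Z : (ι → α) × α, f (Function.update Z.1 i Z.2) = ∑ Z : (ι → α) × α, f Z.1 :=
    Equiv.sum_comp (Function.Involutive.toPerm φ hφ) (fun Z : (ι → α) × α => f Z.1)
  rw [← Fintype.sum_prod_type', h1, Fintype.sum_prod_type]
  simp [sum_const, card_univ, smul_sum]

section
variable {k L : ℕ} {U : Type} [DecidableEq U]

/-- The set of size `k` that corresponds to `x : Fin k → Fin L`. -/
def enc (φ : Fin k × Fin L ↪ U) (x : Fin k → Fin L) : Finset U :=
  univ.image (fun β => φ (β, x β))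

lemma card_enc (φ : Fin k × Fin L ↪ U) (x : Fin k → Fin L) : (enc φ x).card = k := by
  rw [enc, card_image_of_injective, card_univ, Fintype.card_fin]
  intro a b h
  exact congrArg Prod.fst (φ.injective h)

lemma mem_enc (φ : Fin k × Fin L ↪ U) (x : Fin k → Fin L) (β : Fin k) (v : Fin L) :
    φ (β, v) ∈ enc φ x ↔ x β = v := by
  rw [enc, mem_image]
  constructor
  · rintro ⟨γ, _, h⟩
    have h1 := φ.injective h
    rw [Prod.mk.injEq] at h1
    obtain ⟨h2, h3⟩ := h1
    rw [← h2]
    exact h3
  · rintro rfl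
    exact ⟨β, mem_univ _, rfl⟩

lemma enc_inter (φ : Fin k × Fin L ↪ U) (x y : Fin k → Fin L) :
    enc φ x ∩ enc φ y = (univ.filter (fun β => x β = y β)).image (fun β => φ (β, x β)) := by
  ext u
  rw [mem_inter, mem_image]
  constructor
  · rintro ⟨h1, h2⟩
    rw [enc, mem_image] at h1
    obtain ⟨β, _, rfl⟩ := h1
    rw [mem_enc] at h2
    exact ⟨β, mem_filter.2 ⟨mem_univ _, h2.symm⟩, rfl⟩
  · rintro ⟨β, hβ, rfl⟩
    rw [mem_filter] at hβ
    rw [mem_enc, mem_enc]
    exact ⟨rfl, hβ.2.symm⟩

lemma card_enc_inter (φ : Fin k × Fin L ↪ U) (x y : Fin k → Fin L) :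
    (enc φ x ∩ enc φ y).card = (univ.filter (fun β => x β = y β)).card := by
  rw [enc_inter, card_image_of_injective]
  intro a b h
  exact congrArg Prod.fst (φ.injective h)

lemma agree_iff (φ : Fin k × Fin L ↪ U) (x y : Fin k → Fin L) (β : Fin k) :
    x β = y β ↔ ∃ v, φ (β, v) ∈ enc φ x ∩ enc φ y := by
  constructor
  · intro h
    exact ⟨x β, by rw [mem_inter, mem_enc, mem_enc]; exact ⟨rfl, h.symm⟩⟩
  · rintro ⟨v, hv⟩
    rw [mem_inter, mem_enc, mem_enc] at hv
    rw [hv.1, hv.2]

/-- The average size of the agreement set. -/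
lemma sum_agree (k L : ℕ) :
    L * ∑ x : Fin k → Fin L, ∑ y : Fin k → Fin L, (univ.filter (fun β => x β = y β)).card =
      k * (L ^ k * L ^ k) := by
  have h1 : ∀ x : Fin k → Fin L, L * ∑ y : Fin k → Fin L, (univ.filter (fun β => x β = y β)).card =
      k * L ^ k := by
    intro x
    have h2 : ∀ β : Fin k, L * ∑ y : Fin k → Fin L, (if x β = y β then 1 else 0) = L ^ k := by
      intro β
      have h3 := sum_update β (fun y : Fin k → Fin L => if x β = y β then (1 : ℕ) else 0)
      rw [Fintype.card_fin, smul_eq_mul] at h3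
      rw [← h3]
      simp
    calc L * ∑ y : Fin k → Fin L, (univ.filter (fun β => x β = y β)).card =
        L * ∑ y : Fin k → Fin L, ∑ β : Fin k, (if x β = y β then 1 else 0) := by
          congr 1; apply sum_congr rfl; intro y _; rw [card_filter]
      _ = ∑ β : Fin k, L * ∑ y : Fin k → Fin L, (if x β = y β then 1 else 0) := by
          rw [sum_comm, mul_sum]
      _ = ∑ _β : Fin k, L ^ k := sum_congr rfl (fun β _ => h2 β)
      _ = _ := by simp
  rw [mul_sum, sum_congr rfl (fun x _ => h1 x)]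
  simp
  ring

/-- At most half of all pairs agree in more than `2 t` of the `t L` coordinates. -/
lemma card_many_agree {t L k : ℕ} (ht : 1 ≤ t) (hL : 1 ≤ L) (hk : k = t * L) :
    2 * (univ.filter (fun Z : (Fin k → Fin L) × (Fin k → Fin L) =>
      2 * t < (univ.filter (fun β => Z.1 β = Z.2 β)).card)).card ≤
      L ^ k * L ^ k := by
  set M := L ^ k * L ^ k with hM
  set E := univ.filter (fun Z : (Fin k → Fin L) × (Fin k → Fin L) =>
      2 * t < (univ.filter (fun β => Z.1 β = Z.2 β)).card) with hE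
  have h1 := sum_agree k L
  have h2 : E.card * (2 * t) ≤ ∑ x : Fin k → Fin L, ∑ y : Fin k → Fin L,
      (univ.filter (fun β => x β = y β)).card := by
    rw [← Fintype.sum_prod_type']
    calc E.card * (2 * t) = ∑ Z ∈ E, 2 * t := by rw [sum_const, smul_eq_mul]
      _ ≤ ∑ Z ∈ E, (univ.filter (fun β => Z.1 β = Z.2 β)).card := by
          apply sum_le_sum
          intro Z hZ
          rw [hE, mem_filter] at hZ
          exact hZ.2.le
      _ ≤ _ := sum_le_sum_of_subset (subset_univ _)
  have h3 : L * (E.card * (2 * t)) ≤ t * L * M := by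
    rw [← hk, ← h1]; exact Nat.mul_le_mul_left _ h2
  have h4 : (t * L) * (2 * E.card) ≤ (t * L) * M := by
    calc (t * L) * (2 * E.card) = L * (E.card * (2 * t)) := by ring
      _ ≤ _ := h3
  exact Nat.le_of_mul_le_mul_left h4 (by positivity)

end

/-- The estimate for one pair of sets: a quarter of all pairs `(x, y)` needs more than `σ` heavy
probes. Here `t = 128 T₀`, `L = 192 C D`, sets of size `k = t L`. -/
theorem pair {S w C D T₀ σ t L k : ℕ} (hk : k = t * L) (hT : 1 ≤ T₀) (hC : 1 ≤ C) (hD : 1 ≤ D) (ht : t = 128 * T₀)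
    (hL : L = 192 * C * D) (hσ : w * σ ≤ 2 * T₀)
    (φ : Fin k × Fin L ↪ Fin (2 ^ w))
    (mem : (Fin k → Fin L) → (Fin k → Fin L) → Fin S → Fin (2 ^ w))
    (alg : Alg S (Fin (2 ^ w)) (Finset (Fin (2 ^ w)))) (hv : Finset (Fin S))
    (hlight : ∀ c, c ∉ hv → ∃ (P : Fin (2 ^ D) → (Fin k → Fin L) → Prop)
      (Q : Fin (2 ^ D) → (Fin k → Fin L) → Prop)
      (v : Fin (2 ^ D) → Fin (2 ^ w)), ∀ x y, (∃! r, P r x ∧ Q r y) ∧
        ∀ r, P r x → Q r y → mem x y c = v r)
    (hrun : ∀ x y, alg.run (mem x y) = enc φ x ∩ enc φ y)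
    (htime : ∀ x y, alg.time (mem x y) ≤ C * (t + (enc φ x ∩ enc φ y).card)) :
    L ^ k * L ^ k ≤ 4 * (univ.filter
      (fun Z : (Fin k → Fin L) × (Fin k → Fin L) =>
        σ < (alg.probed (mem Z.1 Z.2) ∩ hv).card)).card := by
  classical
  have hL2 : 2 ≤ L := by
    rw [hL]
    have : 1 ≤ C * D := Nat.mul_pos hC hD
    nlinarith
  have hLr : (2 : ℝ) ≤ L := by exact_mod_cast hL2
  have ht1 : 1 ≤ t := by omega
  set e : ℝ := 1 / (2 * L) with he
  have he0 : 0 < e := by rw [he]; positivity
  have he2 : 2 * e ≤ 1 := by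
    rw [he, mul_one_div, div_le_one (by positivity)]; linarith
  set lam : ℝ := 1 - 1 / (32 * L) with hlam
  have hlam0 : 0 ≤ lam := by
    rw [hlam, sub_nonneg, div_le_one (by positivity)]; linarith
  -- apply the tree lemma
  have htree := tree mem (fun x y => enc φ x ∩ enc φ y) hv (e := e)
    (K0 := (lam * ((L : ℝ) ^ e) ^ 2) ^ k) he0.le (by linarith) (by positivity)
    (by
      intro r A B
      have h1 : (A ×ˢ B).filter (fun Z => enc φ Z.1 ∩ enc φ Z.2 = r) ⊆
          (A ×ˢ B).filter (fun Z => ∀ β, (Z.1 β = Z.2 β ↔ ∃ v, φ (β, v) ∈ r)) := by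
        intro Z hZ
        rw [mem_filter] at hZ ⊢
        refine ⟨hZ.1, fun β => ?_⟩
        rw [agree_iff φ, hZ.2]
      refine le_trans ?_ (rect hL2 he k A B (fun β => ∃ v, φ (β, v) ∈ r))
      exact_mod_cast card_le_card h1) D hlight alg σ (C * (t + 2 * t)) ∅ (fun _ => 0)
      univ univ
  -- the three sets
  set M := L ^ k * L ^ k with hM
  set E1 := univ.filter (fun Z : (Fin k → Fin L) × (Fin k → Fin L) =>
      2 * t < (univ.filter (fun β => Z.1 β = Z.2 β)).card) with hE1
  set E2 := good mem (fun x y => enc φ x ∩ enc φ y) hv alg σ (C * (t + 2 * t)) ∅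
    (fun _ => 0) univ univ with hE2
  set E3 := univ.filter (fun Z : (Fin k → Fin L) × (Fin k → Fin L) => σ < (alg.probed (mem Z.1 Z.2) ∩ hv).card) with hE3
  have hcov : (univ : Finset ((Fin k → Fin L) × (Fin k → Fin L))) ⊆ E1 ∪ E2 ∪ E3 := by
    intro Z _
    by_cases h1 : 2 * t < (univ.filter (fun β => Z.1 β = Z.2 β)).card
    · exact mem_union_left _ (mem_union_left _ (mem_filter.2 ⟨mem_univ _, h1⟩))
    by_cases h3 : σ < (alg.probed (mem Z.1 Z.2) ∩ hv).card
    · exact mem_union_right _ (mem_filter.2 ⟨mem_univ _, h3⟩)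
    apply mem_union_left
    apply mem_union_right
    rw [hE2, good, mem_filter]
    refine ⟨mem_product.2 ⟨mem_univ _, mem_univ _⟩, fun c hc => absurd hc (notMem_empty _),
      hrun _ _, ?_, ?_⟩
    · refine (htime _ _).trans ?_
      apply Nat.mul_le_mul_left
      rw [card_enc_inter]
      omega
    · rw [sdiff_empty]; omega
  have hM1 : M = (univ : Finset ((Fin k → Fin L) × (Fin k → Fin L))).card := by
    rw [card_univ, Fintype.card_prod, Fintype.card_fun, Fintype.card_fin, Fintype.card_fin]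
  have h1 : 2 * E1.card ≤ M := card_many_agree ht1 (by omega) hk
  have hu : ((univ : Finset (Fin k → Fin L)).card : ℝ) = (L : ℝ) ^ k := by
    rw [card_univ, Fintype.card_fun, Fintype.card_fin, Fintype.card_fin]; push_cast; rfl
  have h2 : 4 * E2.card ≤ M := by
    have h3 : (E2.card : ℝ) ≤ (M : ℝ) / 4 := by
      refine htree.trans ?_
      rw [hu]
      have hMr : (M : ℝ) = (L : ℝ) ^ k * (L : ℝ) ^ k := by rw [hM]; push_cast; ring
      have hM0 : (0 : ℝ) < M := by rw [hMr]; positivity
      rw [← hMr]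
      -- `((L^e)^2)^k = M^e`
      have h4 : (((L : ℝ) ^ e) ^ 2) ^ k = (M : ℝ) ^ e := by
        rw [hMr, ← pow_mul, ← Real.rpow_natCast, ← Real.rpow_mul (by positivity), mul_comm e,
          Real.rpow_mul (by positivity)]
        congr 1
        rw [← pow_add, ← two_mul]
        exact_mod_cast rfl
      rw [mul_pow, h4]
      have h5 : (M : ℝ) ^ e * (M : ℝ) ^ (1 - e) = M := by
        rw [← Real.rpow_add hM0]; simp
      have h6 : lam ^ k * (((Fintype.card (Fin (2 ^ w)) : ℕ) : ℝ) ^ σ *
          (((2 : ℝ) ^ D) ^ e) ^ (C * (t + 2 * t))) ≤ 1 / 4 := by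
        -- `lam ^ k ≤ exp (-4 T₀)`
        have h7 : lam ^ k ≤ Real.exp (-4 * T₀) := by
          have h8 : lam ≤ Real.exp (-(1 / (32 * L))) := by
            have := Real.add_one_le_exp (-(1 / (32 * (L : ℝ))))
            linarith
          calc lam ^ k ≤ (Real.exp (-(1 / (32 * L)))) ^ k := pow_le_pow_left₀ hlam0 h8 k
            _ = Real.exp (-4 * T₀) := by
              rw [← Real.exp_nat_mul]
              congr 1
              rw [hk, ht]
              push_cast
              field_simp
              norm_num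
        have h9 : (((Fintype.card (Fin (2 ^ w)) : ℕ) : ℝ)) ^ σ ≤ 4 ^ T₀ := by
          rw [Fintype.card_fin]
          push_cast
          rw [← pow_mul]
          calc (2 : ℝ) ^ (w * σ) ≤ 2 ^ (2 * T₀) := pow_le_pow_right₀ (by norm_num) hσ
            _ = 4 ^ T₀ := by rw [pow_mul]; norm_num
        have h10 : (((2 : ℝ) ^ D) ^ e) ^ (C * (t + 2 * t)) = 2 ^ T₀ := by
          rw [← Real.rpow_natCast (2 : ℝ) D, ← Real.rpow_mul (by norm_num),
            ← Real.rpow_natCast _ (C * (t + 2 * t)), ← Real.rpow_mul (by norm_num),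
            ← Real.rpow_natCast (2 : ℝ) T₀]
          congr 1
          rw [he, hL, ht]
          have hC' : (C : ℝ) ≠ 0 := by positivity
          have hD' : (D : ℝ) ≠ 0 := by positivity
          push_cast
          field_simp
          ring
        have h11 : 0 ≤ lam ^ k := by positivity
        calc lam ^ k * (((Fintype.card (Fin (2 ^ w)) : ℕ) : ℝ) ^ σ *
          (((2 : ℝ) ^ D) ^ e) ^ (C * (t + 2 * t))) ≤ Real.exp (-4 * T₀) * (4 ^ T₀ * 2 ^ T₀) := by
              rw [h10]
              apply mul_le_mul h7 _ (by positivity) (Real.exp_pos _).le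
              exact mul_le_mul_of_nonneg_right h9 (by positivity)
          _ = (8 * Real.exp (-4)) ^ T₀ := by
              rw [← mul_pow, mul_pow 8, ← Real.exp_nat_mul]
              norm_num
              rw [mul_comm, mul_comm (T₀ : ℝ) 4]
          _ ≤ 1 / 4 := by
              have h12 : 8 * Real.exp (-4) ≤ 1 / 4 := by
                rw [Real.exp_neg]
                have h13 : (32 : ℝ) ≤ Real.exp 4 := by
                  have h14 : Real.exp 4 = (Real.exp 1) ^ 4 := by
                    rw [← Real.exp_nat_mul]; norm_num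
                  have h15 := Real.exp_one_gt_d9
                  rw [h14]
                  calc (32 : ℝ) ≤ 2.7 ^ 4 := by norm_num
                    _ ≤ _ := pow_le_pow_left₀ (by norm_num) (by linarith) 4
                rw [mul_inv_le_iff₀ (Real.exp_pos _)]
                linarith
              calc (8 * Real.exp (-4)) ^ T₀ ≤ (8 * Real.exp (-4)) ^ 1 :=
                    pow_le_pow_of_le_one (by positivity) (by linarith) hT
                _ ≤ _ := by rw [pow_one]; exact h12
      calc lam ^ k * (M : ℝ) ^ e * ((Fintype.card (Fin (2 ^ w)) : ℕ) : ℝ) ^ σ *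
          (((2 : ℝ) ^ D) ^ e) ^ (C * (t + 2 * t)) * (M : ℝ) ^ (1 - e) =
          (lam ^ k * (((Fintype.card (Fin (2 ^ w)) : ℕ) : ℝ) ^ σ *
          (((2 : ℝ) ^ D) ^ e) ^ (C * (t + 2 * t)))) * ((M : ℝ) ^ e * (M : ℝ) ^ (1 - e)) := by ring
        _ ≤ (1 / 4) * M := by
            rw [h5]
            exact mul_le_mul_of_nonneg_right h6 hM0.le
        _ = _ := by ring
    have h4 : 4 * (E2.card : ℝ) ≤ M := by linarith
    exact_mod_cast h4
  have h5 : M ≤ E1.card + E2.card + E3.card := by
    rw [hM1]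
    refine (card_le_card hcov).trans ?_
    refine (card_union_le _ _).trans ?_
    have := card_union_le E1 E2
    omega
  omega

end Pool.Agent.SetInt
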