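import Pool.Agent.SetInt.Defs

/-!
# The tree lemma
-/

namespace Pool.Agent.SetInt

open Finset Real

section
variable {X Y W R : Type} [Fintype W] [DecidableEq X] [DecidableEq Y]
  [DecidableEq W] [DecidableEq R] [Nonempty W] {S : ℕ}

/-- Hölder for finitely many parts: `∑ x_i^(1-e) ≤ n^e (∑ x_i)^(1-e)`. -/
lemma sum_rpow_le_card {ι : Type} (s : Finset ι) (f : ι → ℝ) (hf : ∀ i ∈ s, 0 ≤ f i) {e : ℝ}
    (he0 : 0 ≤ e) (he1 : e ≤ 1) {n : ℝ} (hn : (s.card : ℝ) ≤ n) :
    ∑ i ∈ s, (f i) ^ (1 - e) ≤ n ^ e * (∑ i ∈ s, f i) ^ (1 - e) := by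
  rcases s.eq_empty_or_nonempty with rfl | hs
  · simp only [sum_empty]
    have hn0 : 0 ≤ n := by simpa using hn
    positivity
  have hc : 0 < (s.card : ℝ) := by exact_mod_cast hs.card_pos
  have h1 := (Real.concaveOn_rpow (p := 1 - e) (by linarith) (by linarith)).le_map_sum
    (t := s) (w := fun _ => 1 / (s.card : ℝ)) (p := f) (fun _ _ => by positivity)
    (by rw [sum_const, nsmul_eq_mul]; field_simp) (fun i hi => Set.mem_Ici.2 (hf i hi))
  simp only [smul_eq_mul] at h1
  rw [← mul_sum, ← mul_sum] at h1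
  have hs0 : 0 ≤ ∑ i ∈ s, f i := sum_nonneg hf
  rw [Real.mul_rpow (by positivity) hs0, one_div_mul_eq_div, div_le_iff₀ hc] at h1
  have h2 : (1 / (s.card : ℝ)) ^ (1 - e) * (∑ i ∈ s, f i) ^ (1 - e) * s.card =
      (s.card : ℝ) ^ e * (∑ i ∈ s, f i) ^ (1 - e) := by
    have h3 : (1 / (s.card : ℝ)) ^ (1 - e) * s.card = (s.card : ℝ) ^ e := by
      rw [one_div, Real.inv_rpow hc.le, ← Real.rpow_neg hc.le]
      nth_rewrite 2 [← Real.rpow_one (s.card : ℝ)]
      rw [← Real.rpow_add hc]
      congr 1; ring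
    rw [← h3]; ring
  rw [h2] at h1
  refine h1.trans ?_
  apply mul_le_mul_of_nonneg_right _ (by positivity)
  exact Real.rpow_le_rpow hc.le hn he0

open Classical in
/-- The pairs in `A × B` on which the algorithm `t` is correct, takes at most `τ` steps and probes
at most `σ` cells of `hv \ K`, the contents of the cells of `K` being given by `κ`. -/
noncomputable def good (mem : X → Y → Fin S → W) (ans : X → Y → R) (hv : Finset (Fin S))
    (t : Alg S W R) (σ τ : ℕ) (K : Finset (Fin S)) (κ : Fin S → W) (A : Finset X)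
    (B : Finset Y) : Finset (X × Y) :=
  (A ×ˢ B).filter (fun Z => (∀ c ∈ K, mem Z.1 Z.2 c = κ c) ∧ t.run (mem Z.1 Z.2) = ans Z.1 Z.2 ∧
    t.time (mem Z.1 Z.2) ≤ τ ∧ ((t.probed (mem Z.1 Z.2) ∩ hv) \ K).card ≤ σ)

open Classical in
/-- The tree lemma. -/
theorem tree (mem : X → Y → Fin S → W) (ans : X → Y → R) (hv : Finset (Fin S)) {e K0 : ℝ}
    (he0 : 0 ≤ e) (he1 : e ≤ 1) (hK0 : 0 ≤ K0)
    (hrect : ∀ (r : R) (A : Finset X) (B : Finset Y),
      (((A ×ˢ B).filter (fun Z => ans Z.1 Z.2 = r)).card : ℝ) ≤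
        K0 * ((A.card : ℝ) * B.card) ^ (1 - e)) (D : ℕ)
    (hlight : ∀ c, c ∉ hv → ∃ (P : Fin (2 ^ D) → X → Prop) (Q : Fin (2 ^ D) → Y → Prop)
      (v : Fin (2 ^ D) → W), ∀ x y, (∃! r, P r x ∧ Q r y) ∧
        ∀ r, P r x → Q r y → mem x y c = v r) :
    ∀ (t : Alg S W R) (σ τ : ℕ) (K : Finset (Fin S)) (κ : Fin S → W) (A : Finset X)
      (B : Finset Y),
      ((good mem ans hv t σ τ K κ A B).card : ℝ) ≤
        K0 * (Fintype.card W : ℝ) ^ σ * (((2 : ℝ) ^ D) ^ e) ^ τ *
          ((A.card : ℝ) * B.card) ^ (1 - e) := by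
  have hD1 : (1 : ℝ) ≤ ((2 : ℝ) ^ D) ^ e := Real.one_le_rpow (one_le_pow₀ (by norm_num)) he0
  intro t
  induction t with
  | out r =>
    intro σ τ K κ A B
    have h1 : good mem ans hv (Alg.out r) σ τ K κ A B ⊆
        (A ×ˢ B).filter (fun Z => ans Z.1 Z.2 = r) := by
      intro Z hZ
      rw [good, mem_filter] at hZ
      rw [mem_filter]
      exact ⟨hZ.1, hZ.2.2.1.symm⟩
    have h2 := card_le_card h1
    have h3 : ((good mem ans hv (Alg.out r) σ τ K κ A B).card : ℝ) ≤
        K0 * ((A.card : ℝ) * B.card) ^ (1 - e) := le_trans (by exact_mod_cast h2) (hrect r A B)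
    refine h3.trans ?_
    have h4 : (1 : ℝ) ≤ (((2 : ℝ) ^ D) ^ e) ^ τ := one_le_pow₀ hD1
    have h6 : (1 : ℝ) ≤ (Fintype.card W : ℝ) ^ σ :=
      one_le_pow₀ (by exact_mod_cast Fintype.card_pos)
    have h5 : 0 ≤ K0 * ((A.card : ℝ) * B.card) ^ (1 - e) := by positivity
    have h7 : (1 : ℝ) ≤ (Fintype.card W : ℝ) ^ σ * (((2 : ℝ) ^ D) ^ e) ^ τ := by
      nlinarith
    calc K0 * ((A.card : ℝ) * B.card) ^ (1 - e) =
        (K0 * ((A.card : ℝ) * B.card) ^ (1 - e)) * 1 := by ring
      _ ≤ (K0 * ((A.card : ℝ) * B.card) ^ (1 - e)) *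
          ((Fintype.card W : ℝ) ^ σ * (((2 : ℝ) ^ D) ^ e) ^ τ) :=
          mul_le_mul_of_nonneg_left h7 h5
      _ = _ := by ring
  | probe c next ih =>
    intro σ τ K κ A B
    have hW1 : (1 : ℝ) ≤ Fintype.card W := by exact_mod_cast Fintype.card_pos
    have hr0 : 0 ≤ ((A.card : ℝ) * B.card) ^ (1 - e) := by positivity
    rcases Nat.eq_zero_or_pos τ with hτ | hτ
    · have h1 : good mem ans hv (Alg.probe c next) σ τ K κ A B = ∅ := by
        rw [good, filter_eq_empty_iff]
        rintro Z _ ⟨_, _, h, _⟩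
        rw [hτ] at h
        simp [Alg.time] at h
      rw [h1, card_empty]
      push_cast
      positivity
    obtain ⟨τ', rfl⟩ : ∃ τ', τ = τ' + 1 := ⟨τ - 1, by omega⟩
    set q := ((2 : ℝ) ^ D) ^ e with hq
    have hq0 : 0 < q := by linarith
    by_cases hcK : c ∈ K
    · -- the content is known
      have h1 : good mem ans hv (Alg.probe c next) σ (τ' + 1) K κ A B ⊆
          good mem ans hv (next (κ c)) σ τ' K κ A B := by
        intro Z hZ
        rw [good, mem_filter] at hZ ⊢
        obtain ⟨hZ1, hZ2, hZ3, hZ4, hZ5⟩ := hZ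
        have hc := hZ2 c hcK
        simp only [Alg.run, Alg.time, Alg.probed, hc] at hZ3 hZ4 hZ5
        refine ⟨hZ1, hZ2, hZ3, by omega, le_trans (card_le_card ?_) hZ5⟩
        intro d hd
        rw [mem_sdiff, mem_inter] at hd ⊢
        exact ⟨⟨mem_insert_of_mem hd.1.1, hd.1.2⟩, hd.2⟩
      have h2 : ((good mem ans hv (Alg.probe c next) σ (τ' + 1) K κ A B).card : ℝ) ≤
          K0 * (Fintype.card W : ℝ) ^ σ * q ^ τ' * ((A.card : ℝ) * B.card) ^ (1 - e) :=
        le_trans (by exact_mod_cast card_le_card h1) (ih (κ c) σ τ' K κ A B)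
      refine h2.trans ?_
      apply mul_le_mul_of_nonneg_right _ hr0
      apply mul_le_mul_of_nonneg_left _ (by positivity)
      exact pow_le_pow_right₀ hD1 (by omega)
    by_cases hch : c ∈ hv
    · -- a new heavy cell
      rcases Nat.eq_zero_or_pos σ with hσ | hσ
      · have h1 : good mem ans hv (Alg.probe c next) σ (τ' + 1) K κ A B = ∅ := by
          rw [good, filter_eq_empty_iff]
          rintro Z _ ⟨_, _, _, h⟩
          rw [hσ, Nat.le_zero, card_eq_zero] at h
          have : c ∈ ((Alg.probe c next).probed (mem Z.1 Z.2) ∩ hv) \ K := by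
            rw [mem_sdiff, mem_inter]
            refine ⟨⟨?_, hch⟩, hcK⟩
            simp [Alg.probed]
          rw [h] at this
          exact absurd this (notMem_empty _)
        rw [h1, card_empty]
        push_cast
        positivity
      obtain ⟨σ', rfl⟩ : ∃ σ', σ = σ' + 1 := ⟨σ - 1, by omega⟩
      have h1 : good mem ans hv (Alg.probe c next) (σ' + 1) (τ' + 1) K κ A B ⊆
          univ.biUnion (fun v : W => good mem ans hv (next v) σ' τ' (insert c K)
            (Function.update κ c v) A B) := by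
        intro Z hZ
        rw [good, mem_filter] at hZ
        obtain ⟨hZ1, hZ2, hZ3, hZ4, hZ5⟩ := hZ
        simp only [Alg.run, Alg.time, Alg.probed] at hZ3 hZ4 hZ5
        rw [mem_biUnion]
        refine ⟨mem Z.1 Z.2 c, mem_univ _, ?_⟩
        rw [good, mem_filter]
        refine ⟨hZ1, ?_, hZ3, by omega, ?_⟩
        · intro d hd
          rcases eq_or_ne d c with rfl | hdc
          · simp
          · rw [Function.update_of_ne hdc]
            exact hZ2 d ((mem_insert.1 hd).resolve_left hdc)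
        · have h2 : insert c (((next (mem Z.1 Z.2 c)).probed (mem Z.1 Z.2) ∩ hv) \ insert c K) ⊆
              (insert c ((next (mem Z.1 Z.2 c)).probed (mem Z.1 Z.2)) ∩ hv) \ K := by
            intro d hd
            rw [mem_insert, mem_sdiff, mem_inter, mem_insert, not_or] at hd
            rw [mem_sdiff, mem_inter, mem_insert]
            rcases hd with rfl | hd
            · exact ⟨⟨Or.inl rfl, hch⟩, hcK⟩
            · exact ⟨⟨Or.inr hd.1.1, hd.1.2⟩, hd.2.2⟩
          have h3 := card_le_card h2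
          rw [card_insert_of_notMem (by simp)] at h3
          omega
      have h2 : ((good mem ans hv (Alg.probe c next) (σ' + 1) (τ' + 1) K κ A B).card : ℝ) ≤
          ∑ _v : W, (K0 * (Fintype.card W : ℝ) ^ σ' * q ^ τ' *
            ((A.card : ℝ) * B.card) ^ (1 - e)) := by
        calc _ ≤ ((univ.biUnion (fun v : W => good mem ans hv (next v) σ' τ' (insert c K)
            (Function.update κ c v) A B)).card : ℝ) := by exact_mod_cast card_le_card h1
          _ ≤ ((∑ v : W, (good mem ans hv (next v) σ' τ' (insert c K)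
            (Function.update κ c v) A B).card : ℕ) : ℝ) := by exact_mod_cast card_biUnion_le
          _ = ∑ v : W, ((good mem ans hv (next v) σ' τ' (insert c K)
            (Function.update κ c v) A B).card : ℝ) := by push_cast; rfl
          _ ≤ _ := sum_le_sum (fun v _ => ih v σ' τ' _ _ A B)
      rw [sum_const, card_univ, nsmul_eq_mul] at h2
      refine h2.trans ?_
      calc (Fintype.card W : ℝ) * (K0 * (Fintype.card W : ℝ) ^ σ' * q ^ τ' *
            ((A.card : ℝ) * B.card) ^ (1 - e)) =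
          K0 * (Fintype.card W : ℝ) ^ (σ' + 1) * q ^ τ' *
            ((A.card : ℝ) * B.card) ^ (1 - e) := by rw [pow_succ]; ring
        _ ≤ _ := by
            apply mul_le_mul_of_nonneg_right _ hr0
            apply mul_le_mul_of_nonneg_left _ (by positivity)
            exact pow_le_pow_right₀ hD1 (by omega)
    · -- a light cell
      obtain ⟨P, Q, v, hPQ⟩ := hlight c hch
      have h1 : good mem ans hv (Alg.probe c next) σ (τ' + 1) K κ A B ⊆
          univ.biUnion (fun r : Fin (2 ^ D) => good mem ans hv (next (v r)) σ τ' K κ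
            (A.filter (P r)) (B.filter (Q r))) := by
        intro Z hZ
        rw [good, mem_filter] at hZ
        obtain ⟨hZ1, hZ2, hZ3, hZ4, hZ5⟩ := hZ
        obtain ⟨⟨r, ⟨hr1, hr2⟩, _⟩, hr⟩ := hPQ Z.1 Z.2
        have hc := hr r hr1 hr2
        simp only [Alg.run, Alg.time, Alg.probed, hc] at hZ3 hZ4 hZ5
        rw [mem_biUnion]
        refine ⟨r, mem_univ _, ?_⟩
        rw [good, mem_filter]
        rw [mem_product] at hZ1
        refine ⟨?_, hZ2, hZ3, by omega, le_trans (card_le_card ?_) hZ5⟩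
        · rw [mem_product, mem_filter, mem_filter]
          exact ⟨⟨hZ1.1, hr1⟩, ⟨hZ1.2, hr2⟩⟩
        · intro d hd
          rw [mem_sdiff, mem_inter] at hd ⊢
          exact ⟨⟨mem_insert_of_mem hd.1.1, hd.1.2⟩, hd.2⟩
      have hsum : ∑ r : Fin (2 ^ D), (((A.filter (P r)).card : ℝ) * (B.filter (Q r)).card) ≤
          (A.card : ℝ) * B.card := by
        have h3 : ∑ r : Fin (2 ^ D), (A.filter (P r)).card * (B.filter (Q r)).card ≤
            A.card * B.card := by
          have h4 : ∀ r : Fin (2 ^ D), (A.filter (P r)).card * (B.filter (Q r)).card =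
              ((A.filter (P r)) ×ˢ (B.filter (Q r))).card := fun r => (card_product _ _).symm
          rw [sum_congr rfl (fun r _ => h4 r), ← card_product A B, ← card_biUnion]
          · apply card_le_card
            intro Z hZ
            rw [mem_biUnion] at hZ
            obtain ⟨r, _, hZ⟩ := hZ
            rw [mem_product, mem_filter, mem_filter] at hZ
            rw [mem_product]
            exact ⟨hZ.1.1, hZ.2.1⟩
          · intro r _ r' _ hrr'
            change Disjoint (A.filter (P r) ×ˢ B.filter (Q r)) (A.filter (P r') ×ˢ B.filter (Q r'))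
            rw [Finset.disjoint_left]
            intro Z hZ hZ'
            rw [mem_product, mem_filter, mem_filter] at hZ hZ'
            obtain ⟨⟨r0, _, hr0'⟩, _⟩ := hPQ Z.1 Z.2
            exact hrr' ((hr0' r ⟨hZ.1.2, hZ.2.2⟩).trans (hr0' r' ⟨hZ'.1.2, hZ'.2.2⟩).symm)
        exact_mod_cast h3
      have h2 : ((good mem ans hv (Alg.probe c next) σ (τ' + 1) K κ A B).card : ℝ) ≤
          ∑ r : Fin (2 ^ D), (K0 * (Fintype.card W : ℝ) ^ σ * q ^ τ' *
            (((A.filter (P r)).card : ℝ) * (B.filter (Q r)).card) ^ (1 - e)) := by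
        calc _ ≤ ((univ.biUnion (fun r : Fin (2 ^ D) => good mem ans hv (next (v r)) σ τ' K κ
            (A.filter (P r)) (B.filter (Q r)))).card : ℝ) := by exact_mod_cast card_le_card h1
          _ ≤ ((∑ r : Fin (2 ^ D), (good mem ans hv (next (v r)) σ τ' K κ
            (A.filter (P r)) (B.filter (Q r))).card : ℕ) : ℝ) := by
              exact_mod_cast card_biUnion_le
          _ = ∑ r : Fin (2 ^ D), ((good mem ans hv (next (v r)) σ τ' K κ
            (A.filter (P r)) (B.filter (Q r))).card : ℝ) := by push_cast; rfl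
          _ ≤ _ := sum_le_sum (fun r _ => ih (v r) σ τ' _ _ _ _)
      rw [← mul_sum] at h2
      refine h2.trans ?_
      have h5 := sum_rpow_le_card (univ : Finset (Fin (2 ^ D)))
        (fun r => ((A.filter (P r)).card : ℝ) * (B.filter (Q r)).card)
        (fun r _ => by positivity) he0 he1 (n := (2 : ℝ) ^ D) (by simp)
      have h6 : (∑ r : Fin (2 ^ D), (((A.filter (P r)).card : ℝ) * (B.filter (Q r)).card)) ^
          (1 - e) ≤ ((A.card : ℝ) * B.card) ^ (1 - e) :=
        Real.rpow_le_rpow (sum_nonneg (fun r _ => by positivity)) hsum (by linarith)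
      calc K0 * (Fintype.card W : ℝ) ^ σ * q ^ τ' *
            ∑ r : Fin (2 ^ D), (((A.filter (P r)).card : ℝ) * (B.filter (Q r)).card) ^ (1 - e) ≤
          K0 * (Fintype.card W : ℝ) ^ σ * q ^ τ' * (q * ((A.card : ℝ) * B.card) ^ (1 - e)) := by
            apply mul_le_mul_of_nonneg_left _ (by positivity)
            refine h5.trans ?_
            exact mul_le_mul_of_nonneg_left h6 hq0.le
        _ = _ := by rw [pow_succ]; ring

end

end Pool.Agent.SetInt
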