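import Pool.Agent.SetInt.Defs

/-!
# Sanity check: the hypotheses of the lower bound are satisfiable

A table of all pairwise intersections solves the problem with `C = T = 1`, and every cell depends
on two sets only.
-/

namespace Pool.Agent.SetInt

open Finset

variable {S w : ℕ}

/-- reads the cells `addr 0, …, addr (n - 1)` and returns the set of all values -/
def readAll (addr : ℕ → Fin S) :
    ℕ → Finset (Fin (2 ^ w)) → Alg S (Fin (2 ^ w)) (Finset (Fin (2 ^ w)))
  | 0, A => .out A
  | n + 1, A => .probe (addr n) (fun v => readAll addr n (insert v A))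

lemma run_readAll (M : Fin S → Fin (2 ^ w)) (addr : ℕ → Fin S) (n : ℕ)
    (A : Finset (Fin (2 ^ w))) :
    (readAll addr n A).run M = (range n).image (fun l => M (addr l)) ∪ A := by
  induction n generalizing A with
  | zero => simp [readAll, Alg.run]
  | succ n ih =>
    rw [readAll, Alg.run, ih, range_add_one, image_insert]
    ext x
    simp only [mem_union, mem_insert]
    tauto

lemma time_readAll (M : Fin S → Fin (2 ^ w)) (addr : ℕ → Fin S) (n : ℕ)
    (A : Finset (Fin (2 ^ w))) : (readAll addr n A).time M = n := by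
  induction n generalizing A with
  | zero => simp [readAll, Alg.time]
  | succ n ih => rw [readAll, Alg.time, ih]

/-- the index type of the cells of the table -/
abbrev Idx (N : ℕ) : Type := Fin N × Fin N × Fin (N + 1)

/-- content of a cell of the table -/
noncomputable def content (w N m : ℕ) (F : Fin m → Finset (Fin (2 ^ w))) (c : Idx N) :
    Fin (2 ^ w) :=
  if h : (c.1 : ℕ) < m ∧ (c.2.1 : ℕ) < m then
    if (c.2.2 : ℕ) = 0 then Fin.ofNat (2 ^ w) (F ⟨c.1, h.1⟩ ∩ F ⟨c.2.1, h.2⟩).card
    else (F ⟨c.1, h.1⟩ ∩ F ⟨c.2.1, h.2⟩).toList.getD ((c.2.2 : ℕ) - 1) 0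
  else 0

open Classical in
/-- the table of all pairwise intersections -/
noncomputable def table (N w : ℕ) : DataStructure (Fintype.card (Idx N)) w where
  mem m F c := content w N m F ((Fintype.equivFin (Idx N)).symm c)
  query m i j :=
    if h : m ≤ N then
      .probe (Fintype.equivFin (Idx N) (⟨i, i.2.trans_le h⟩, ⟨j, j.2.trans_le h⟩, 0))
        (fun v => readAll (fun l => Fintype.equivFin (Idx N)
          (⟨i, i.2.trans_le h⟩, ⟨j, j.2.trans_le h⟩, Fin.ofNat (N + 1) (l + 1))) v.val ∅)
    else .out ∅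

theorem table_solves {N w : ℕ} (hw : N < 2 ^ w) : (table N w).Solves N 1 1 := by
  intro m F hm hF i j _
  have hcard : (F i ∩ F j).card ≤ N := by
    calc (F i ∩ F j).card ≤ (F i).card := card_le_card inter_subset_left
      _ ≤ ∑ i, (F i).card := single_le_sum (f := fun i => (F i).card) (fun _ _ => Nat.zero_le _)
          (mem_univ i)
      _ = N := hF
  have h0 : (table N w).mem m F (Fintype.equivFin (Idx N)
      (⟨i, i.2.trans_le hm⟩, ⟨j, j.2.trans_le hm⟩, 0)) =
      Fin.ofNat (2 ^ w) (F i ∩ F j).card := by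
    simp [table, content]
  have h0' : ((Fin.ofNat (2 ^ w) (F i ∩ F j).card : Fin (2 ^ w)) : ℕ) = (F i ∩ F j).card := by
    simp only [Fin.ofNat]
    exact Nat.mod_eq_of_lt (by omega)
  have h1 : ∀ l < (F i ∩ F j).card, (table N w).mem m F (Fintype.equivFin (Idx N)
      (⟨i, i.2.trans_le hm⟩, ⟨j, j.2.trans_le hm⟩, Fin.ofNat (N + 1) (l + 1))) =
      (F i ∩ F j).toList.getD l 0 := by
    intro l hl
    have h2 : (l + 1) % (N + 1) = l + 1 := Nat.mod_eq_of_lt (by omega)
    simp [table, content, Fin.ofNat, h2]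
  have hq : (table N w).query m i j = .probe (Fintype.equivFin (Idx N)
      (⟨i, i.2.trans_le hm⟩, ⟨j, j.2.trans_le hm⟩, 0))
        (fun v => readAll (fun l => Fintype.equivFin (Idx N)
          (⟨i, i.2.trans_le hm⟩, ⟨j, j.2.trans_le hm⟩, Fin.ofNat (N + 1) (l + 1))) v.val ∅) := by
    simp [table, hm]
  rw [hq]
  constructor
  · rw [Alg.run, run_readAll, h0, h0', union_empty]
    ext x
    rw [mem_image]
    constructor
    · rintro ⟨l, hl, rfl⟩
      rw [mem_range] at hl
      rw [h1 l hl, List.getD_eq_getElem _ _ (by rw [length_toList]; exact hl), ← mem_toList]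
      exact List.getElem_mem _
    · intro hx
      rw [← mem_toList] at hx
      obtain ⟨l, hl, hlx⟩ := List.mem_iff_getElem.1 hx
      rw [length_toList] at hl
      refine ⟨l, mem_range.2 hl, ?_⟩
      rw [h1 l hl, List.getD_eq_getElem _ _ (by rw [length_toList]; exact hl), hlx]
  · rw [Alg.time, time_readAll, h0, h0']
    omega

theorem table_local {N w : ℕ} : (table N w).Local N 2 0 := by
  classical
  intro m c _
  set d := (Fintype.equivFin (Idx N)).symm c with hd
  refine ⟨univ.filter (fun i => (i : ℕ) = d.1 ∨ (i : ℕ) = d.2.1), fun _ _ => 0, ?_, ?_⟩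
  · have h1 : (univ.filter (fun i : Fin m => (i : ℕ) = d.1 ∨ (i : ℕ) = d.2.1)) =
        univ.filter (fun i : Fin m => (i : ℕ) = d.1) ∪
        univ.filter (fun i : Fin m => (i : ℕ) = d.2.1) := by
      rw [filter_or]
    have h2 : ∀ a : ℕ, (univ.filter (fun i : Fin m => (i : ℕ) = a)).card ≤ 1 := by
      intro a
      rw [card_le_one]
      intro x hx y hy
      rw [mem_filter] at hx hy
      exact Fin.ext (hx.2.trans hy.2.symm)
    rw [h1]
    exact (card_union_le _ _).trans (Nat.add_le_add (h2 _) (h2 _))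
  · intro F G hFG _
    change content w N m F d = content w N m G d
    unfold content
    split_ifs with h h'
    · rw [hFG ⟨d.1, h.1⟩ (by simp), hFG ⟨d.2.1, h.2⟩ (by simp)]
    · rw [hFG ⟨d.1, h.1⟩ (by simp), hFG ⟨d.2.1, h.2⟩ (by simp)]
    · rfl

end Pool.Agent.SetInt
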